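import Pool.Agent.Work.MP_c51bc2_nt_ub.Interface
import Pool.Agent.Work.MP_c51bc2_nt.B_TF

/-! # KMN: the twisted first moment of `Z` -/

set_option autoImplicit false

open Finset Complex MeasureTheory HZS

namespace HZU

noncomputable section

theorem KMN_Z (hRZ : Stmt_RZ) (t : ℝ) : (Z t : ℂ) = ph t * riemannZeta (1 / 2 + I * t) := by
  apply Complex.ext
  · rw [Complex.ofReal_re]; rfl
  · rw [Complex.ofReal_im, hRZ t]

theorem KMN_e (t y : ℝ) : ‖cexp (I * ((t * y : ℝ) : ℂ))‖ = 1 := by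
  rw [mul_comm]
  exact Complex.norm_exp_ofReal_mul_I _

theorem KMN_mo {k : ℕ} (hk : 1 ≤ k) (t y : ℝ) :
    ph t * mo k t * cexp (I * ((t * y : ℝ) : ℂ)) =
      ((1 / Real.sqrt k : ℝ) : ℂ) * (ph t * cexp (-(I * ((t * (Real.log k - y) : ℝ) : ℂ)))) := by
  rw [TF_mo hk]
  have e1 : -(I * ((t * (Real.log k - y) : ℝ) : ℂ)) = ((-Real.log k : ℝ) : ℂ) * I * t +
      I * ((t * y : ℝ) : ℂ) := by
    push_cast; ring
  rw [e1, Complex.exp_add]
  ring

theorem KMN_neg (hOSC : Stmt_OSC) (hRZ : Stmt_RZ) (hZS : Stmt_ZS) (hPHS : Stmt_PHS) :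
    ∃ C T0 : ℝ, 0 < C ∧ 1 < T0 ∧ ∀ T y : ℝ, T0 ≤ T → y ≤ 0 →
      ‖∫ t in T..(2 * T), (Z t : ℂ) * cexp (I * ((t * y : ℝ) : ℂ))‖ ≤ C * T ^ (3 / 4 : ℝ) := by
  obtain ⟨C1, hC1, hO⟩ := hOSC
  obtain ⟨C2, T2, hC2, hT2, hZ⟩ := hZS
  obtain ⟨hphc, -, hphn, -⟩ := hPHS
  refine ⟨C2 + 2 * C1 * Real.exp (C1 / 2) + 6 * C1, T2, by positivity, hT2, ?_⟩
  intro T y hT hy
  have hT1 : 1 < T := lt_of_lt_of_le hT2 hT
  have hT0 : 0 < T := by linarith
  have hTT : T ≤ 2 * T := by linarith
  set S : ℝ → ℂ := fun t => ∑ k ∈ Icc 1 (N0 T), mo k t with hS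
  have hSc : Continuous S := by
    rw [hS]
    apply continuous_finsetSum
    intro k hk
    exact TF_mo_cont (Finset.mem_Icc.1 hk).1
  have hec : Continuous fun t : ℝ => cexp (I * ((t * y : ℝ) : ℂ)) := by fun_prop
  -- the error term
  have hA : ‖∫ t in T..(2 * T), ph t * (riemannZeta (1 / 2 + I * t) - S t) *
      cexp (I * ((t * y : ℝ) : ℂ))‖ ≤ C2 * Real.sqrt T := by
    have h1 : ∀ t ∈ Set.uIoc T (2 * T), ‖ph t * (riemannZeta (1 / 2 + I * t) - S t) *
        cexp (I * ((t * y : ℝ) : ℂ))‖ ≤ C2 / Real.sqrt T := by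
      intro t ht
      rw [Set.uIoc_of_le hTT] at ht
      rw [norm_mul, norm_mul, hphn, KMN_e, one_mul, mul_one]
      exact hZ T t hT (by linarith [ht.1]) (by linarith [ht.2])
    refine (intervalIntegral.norm_integral_le_of_norm_le_const h1).trans (le_of_eq ?_)
    rw [show 2 * T - T = T by ring, abs_of_pos hT0, div_mul_eq_mul_div, mul_div_assoc]
    congr 1
    exact Real.div_sqrt
  -- the sum
  have hB : ‖∫ t in T..(2 * T), ph t * S t * cexp (I * ((t * y : ℝ) : ℂ))‖ ≤
      2 * C1 * Real.exp (C1 / 2) * T ^ (3 / 4 : ℝ) + 6 * C1 * Real.sqrt T := by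
    have e1 : ∫ t in T..(2 * T), ph t * S t * cexp (I * ((t * y : ℝ) : ℂ)) =
        ∑ k ∈ Icc 1 (N0 T), ((1 / Real.sqrt k : ℝ) : ℂ) *
          ∫ t in T..(2 * T), ph t * cexp (-(I * ((t * (Real.log k - y) : ℝ) : ℂ))) := by
      have e2 : ∀ t : ℝ, ph t * S t * cexp (I * ((t * y : ℝ) : ℂ)) = ∑ k ∈ Icc 1 (N0 T),
          ((1 / Real.sqrt k : ℝ) : ℂ) *
            (ph t * cexp (-(I * ((t * (Real.log k - y) : ℝ) : ℂ)))) := by
        intro t
        rw [hS]
        simp only
        rw [Finset.mul_sum, Finset.sum_mul]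
        apply Finset.sum_congr rfl
        intro k hk
        exact KMN_mo (Finset.mem_Icc.1 hk).1 t y
      simp_rw [e2]
      rw [intervalIntegral.integral_finsetSum]
      · apply Finset.sum_congr rfl
        intro k _
        rw [intervalIntegral.integral_const_mul]
      · intro k _
        apply Continuous.intervalIntegrable
        fun_prop
    rw [e1]
    set K1 : ℕ := ⌊Real.exp C1 * Real.sqrt T⌋₊ with hK1
    have hterm : ∀ k ∈ Icc 1 (N0 T), ‖((1 / Real.sqrt k : ℝ) : ℂ) *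
        ∫ t in T..(2 * T), ph t * cexp (-(I * ((t * (Real.log k - y) : ℝ) : ℂ)))‖ ≤
        (if k ≤ K1 then 1 / Real.sqrt k * (C1 * Real.sqrt T) else 0) + 1 / Real.sqrt k * C1 := by
      intro k hk
      have hk1 : 1 ≤ k := (Finset.mem_Icc.1 hk).1
      have hk0 : (0 : ℝ) < k := by exact_mod_cast hk1
      rw [norm_mul, Complex.norm_real, Real.norm_of_nonneg (by positivity)]
      obtain ⟨h1, h2⟩ := hO T (Real.log k - y) hT1.le
      split_ifs with hkK
      · have h3 : 0 ≤ 1 / Real.sqrt k * C1 := by positivity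
        have h4 : 1 / Real.sqrt k * ‖∫ t in T..(2 * T),
            ph t * cexp (-(I * ((t * (Real.log k - y) : ℝ) : ℂ)))‖ ≤
            1 / Real.sqrt k * (C1 * Real.sqrt T) := by gcongr
        linarith
      · rw [zero_add]
        have h3 : Real.exp C1 * Real.sqrt T < k := by
          push Not at hkK
          exact (Nat.floor_lt (by positivity)).1 hkK
        have h4 : Real.log T / 2 + C1 ≤ Real.log k - y := by
          have h5 := Real.log_le_log (by positivity) h3.le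
          rw [Real.log_mul (Real.exp_ne_zero _) (by positivity), Real.log_exp,
            Real.log_sqrt hT0.le] at h5
          linarith
        have h6 := h2 h4
        gcongr
    refine (norm_sum_le _ _).trans ((Finset.sum_le_sum hterm).trans ?_)
    rw [Finset.sum_add_distrib, ← Finset.sum_mul, ← Finset.sum_filter, ← Finset.sum_mul]
    have h7 : ∑ k ∈ (Icc 1 (N0 T)).filter (fun k => k ≤ K1), 1 / Real.sqrt k ≤
        2 * Real.sqrt K1 := by
      refine le_trans ?_ (TF_sqrt K1)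
      apply Finset.sum_le_sum_of_subset_of_nonneg
      · intro k hk
        rw [Finset.mem_filter, Finset.mem_Icc] at hk
        rw [Finset.mem_Icc]
        exact ⟨hk.1.1, hk.2⟩
      · intro k _ _
        positivity
    have h8 : Real.sqrt K1 ≤ Real.exp (C1 / 2) * T ^ (1 / 4 : ℝ) := by
      have h9 : (K1 : ℝ) ≤ Real.exp C1 * Real.sqrt T := Nat.floor_le (by positivity)
      have h10 : Real.exp C1 * Real.sqrt T = (Real.exp (C1 / 2) * T ^ (1 / 4 : ℝ)) ^ 2 := by
        rw [mul_pow, ← Real.exp_nat_mul, Real.sqrt_eq_rpow, ← Real.rpow_natCast (T ^ (1 / 4 : ℝ)),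
          ← Real.rpow_mul hT0.le]
        congr 1
        · congr 1; push_cast; ring
        · congr 1; norm_num
      rw [h10] at h9
      exact Real.sqrt_le_iff.2 ⟨by positivity, h9⟩
    have h11 : ∑ k ∈ Icc 1 (N0 T), 1 / Real.sqrt k ≤ 6 * Real.sqrt T := by
      refine (TF_sqrt _).trans ?_
      have h12 : ((N0 T : ℕ) : ℝ) ≤ 9 * T := by
        unfold N0
        push_cast
        have := Nat.ceil_lt_add_one (show (0 : ℝ) ≤ 3 * T by positivity)
        linarith
      have h13 : Real.sqrt (N0 T) ≤ 3 * Real.sqrt T := by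
        have h14 : (9 : ℝ) * T = (3 * Real.sqrt T) ^ 2 := by
          rw [mul_pow, Real.sq_sqrt hT0.le]; norm_num
        rw [h14] at h12
        exact Real.sqrt_le_iff.2 ⟨by positivity, h12⟩
      linarith
    have h15 : Real.sqrt T * T ^ (1 / 4 : ℝ) = T ^ (3 / 4 : ℝ) := by
      rw [Real.sqrt_eq_rpow, ← Real.rpow_add hT0]
      congr 1; norm_num
    calc (∑ k ∈ (Icc 1 (N0 T)).filter (fun k => k ≤ K1), 1 / Real.sqrt k) * (C1 * Real.sqrt T) +
          (∑ k ∈ Icc 1 (N0 T), 1 / Real.sqrt k) * C1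
        ≤ (2 * (Real.exp (C1 / 2) * T ^ (1 / 4 : ℝ))) * (C1 * Real.sqrt T) +
          (6 * Real.sqrt T) * C1 := by
          gcongr
          exact h7.trans (by linarith)
      _ = 2 * C1 * Real.exp (C1 / 2) * (Real.sqrt T * T ^ (1 / 4 : ℝ)) +
          6 * C1 * Real.sqrt T := by ring
      _ = _ := by rw [h15]
  have e3 : ∫ t in T..(2 * T), (Z t : ℂ) * cexp (I * ((t * y : ℝ) : ℂ)) =
      (∫ t in T..(2 * T), ph t * (riemannZeta (1 / 2 + I * t) - S t) *
        cexp (I * ((t * y : ℝ) : ℂ))) +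
      ∫ t in T..(2 * T), ph t * S t * cexp (I * ((t * y : ℝ) : ℂ)) := by
    rw [← intervalIntegral.integral_add]
    · apply intervalIntegral.integral_congr
      intro t _
      simp only
      rw [KMN_Z hRZ]
      ring
    · apply Continuous.intervalIntegrable
      exact (hphc.mul (TF_zeta_cont.sub hSc)).mul hec
    · apply Continuous.intervalIntegrable
      exact (hphc.mul hSc).mul hec
  rw [e3]
  have hsq : Real.sqrt T ≤ T ^ (3 / 4 : ℝ) := by
    rw [Real.sqrt_eq_rpow]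
    exact Real.rpow_le_rpow_of_exponent_le hT1.le (by norm_num)
  calc _ ≤ C2 * Real.sqrt T + (2 * C1 * Real.exp (C1 / 2) * T ^ (3 / 4 : ℝ) +
        6 * C1 * Real.sqrt T) := (norm_add_le _ _).trans (add_le_add hA hB)
    _ ≤ C2 * T ^ (3 / 4 : ℝ) + (2 * C1 * Real.exp (C1 / 2) * T ^ (3 / 4 : ℝ) +
        6 * C1 * T ^ (3 / 4 : ℝ)) := by gcongr
    _ = _ := by ring

theorem stmt_KMN (hOSC : Stmt_OSC) (hRZ : Stmt_RZ) (hZS : Stmt_ZS) (hPHS : Stmt_PHS) :
    Stmt_KMN := by
  obtain ⟨C, T0, hC, hT0, h⟩ := KMN_neg hOSC hRZ hZS hPHS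
  refine ⟨C, T0, hC, hT0, ?_⟩
  intro T y hT
  rcases le_total y 0 with hy | hy
  · exact h T y hT hy
  · have h1 := h T (-y) hT (by linarith)
    have hTT : T ≤ 2 * T := by linarith
    have e1 : ∫ t in T..(2 * T), (Z t : ℂ) * cexp (I * ((t * y : ℝ) : ℂ)) =
        (starRingEnd ℂ) (∫ t in T..(2 * T), (Z t : ℂ) * cexp (I * ((t * -y : ℝ) : ℂ))) := by
      rw [intervalIntegral.integral_of_le hTT, intervalIntegral.integral_of_le hTT,
        ← integral_conj]
      apply integral_congr_ae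
      refine Filter.Eventually.of_forall fun t => ?_
      simp only
      rw [map_mul, Complex.conj_ofReal, ← Complex.exp_conj, map_mul, Complex.conj_I,
        Complex.conj_ofReal]
      congr 2
      push_cast
      ring
    rw [e1, Complex.norm_conj]
    exact h1

end

end HZU
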