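import Pool.Agent.Work.MP_c51bc2_nt_ub.Interface
import Pool.Agent.Work.MP_c51bc2_nt.B_PHS
import Pool.Agent.Work.M6Tools18.SDI

/-! # OSC: oscillating integrals of the phase -/

set_option autoImplicit false

open Finset Complex MeasureTheory HZS

namespace HZU

noncomputable section

/-- the phase -/
def osf (y t : ℝ) : ℝ := ((∫ s in (0 : ℝ)..t, dth s) - t * y) / (2 * Real.pi)

theorem OSC_rw (y t : ℝ) :
    ph t * cexp (-(I * ((t * y : ℝ) : ℂ))) = ph 0 * Pool.M6T.e (osf y t) := by
  have hpi : Real.pi ≠ 0 := Real.pi_pos.ne'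
  rw [PHS_formula t, mul_assoc, ← Complex.exp_add]
  unfold Pool.M6T.e osf
  congr 2
  rw [mul_div_cancel₀ _ (by positivity : (2 * Real.pi) ≠ 0)]
  push_cast
  ring

theorem OSC_d1 (y t : ℝ) : HasDerivAt (osf y) ((dth t - y) / (2 * Real.pi)) t := by
  have h1 : HasDerivAt (fun t : ℝ => ∫ s in (0 : ℝ)..t, dth s) (dth t) t :=
    (PHS_contdth.integral_hasStrictDerivAt 0 t).hasDerivAt
  have h2 : HasDerivAt (fun t : ℝ => t * y) y t := by
    simpa using (hasDerivAt_id t).mul_const y
  exact (h1.sub h2).div_const _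

theorem stmt_OSC (hDTD : Stmt_DTD) : Stmt_OSC := by
  obtain ⟨d2, hd2, hd2c, hd2l⟩ := hDTD
  obtain ⟨-, -, hph, C0, hC0, hlog, -⟩ := stmt_PHS
  have hpi := Real.pi_pos
  have hpi3 := Real.pi_gt_three
  have hpi4 := Real.pi_le_four
  have hpi315 : Real.pi < 3.15 := Real.pi_lt_d2
  refine ⟨42 + C0, by positivity, ?_⟩
  intro T y hT
  have hT0 : 0 < T := by linarith
  have hTT : T ≤ 2 * T := by linarith
  have e1 : ‖∫ t in T..(2 * T), ph t * cexp (-(I * ((t * y : ℝ) : ℂ)))‖ =
      ‖∫ t in T..(2 * T), Pool.M6T.e (osf y t)‖ := by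
    simp_rw [OSC_rw]
    rw [intervalIntegral.integral_const_mul, norm_mul, hph, one_mul]
  rw [e1]
  have hf : ∀ x ∈ Set.Icc T (2 * T), HasDerivAt (osf y) ((dth x - y) / (2 * Real.pi)) x :=
    fun x _ => OSC_d1 y x
  have hf' : ∀ x ∈ Set.Icc T (2 * T),
      HasDerivAt (fun x => (dth x - y) / (2 * Real.pi)) (d2 x / (2 * Real.pi)) x :=
    fun x _ => ((hd2 x).sub_const y).div_const _
  have hc : ContinuousOn (fun x => d2 x / (2 * Real.pi)) (Set.Icc T (2 * T)) :=
    (hd2c.div_const _).continuousOn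
  have hd2T : ∀ x ∈ Set.Icc T (2 * T), 1 / (30 * T) ≤ d2 x := by
    intro x hx
    refine le_trans ?_ (hd2l x (by linarith [hx.1]))
    have hx0 : 0 < x := by linarith [hx.1]
    apply one_div_le_one_div_of_le (by positivity)
    linarith [hx.2]
  constructor
  · have hlam : 0 < 1 / (60 * Real.pi * T) := by positivity
    have h1 := Pool.M6T.sdt hTT hlam hf hf' hc (by
      intro x hx
      have h2 := hd2T x hx
      calc 1 / (60 * Real.pi * T) = 1 / (30 * T) / (2 * Real.pi) := by
            field_simp; norm_num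
        _ ≤ d2 x / (2 * Real.pi) := by gcongr)
    refine h1.trans ?_
    have h3 : (1 / 14 : ℝ) ≤ Real.sqrt (1 / (60 * Real.pi)) := by
      apply Real.le_sqrt_of_sq_le
      rw [div_pow, one_pow]
      apply one_div_le_one_div_of_le (by positivity)
      linarith
    have h4 : Real.sqrt T * Real.sqrt (1 / (60 * Real.pi * T)) =
        Real.sqrt (1 / (60 * Real.pi)) := by
      rw [← Real.sqrt_mul hT0.le]
      congr 1
      field_simp
    have h5 : 0 < Real.sqrt (1 / (60 * Real.pi * T)) := Real.sqrt_pos.2 hlam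
    rw [div_le_iff₀ h5, mul_assoc, h4]
    calc (3 : ℝ) = 42 * (1 / 14) := by norm_num
      _ ≤ (42 + C0) * Real.sqrt (1 / (60 * Real.pi)) := by
        apply mul_le_mul (by linarith) h3 (by norm_num) (by positivity)
  · intro hy
    have hmu : 0 < 1 / (2 * Real.pi) := by positivity
    have h1 := Pool.M6T.fdt_neg hTT hmu hf hf' hc (by
      intro x hx
      have h2 := hd2T x hx
      have h3 : 0 < 1 / (30 * T) := by positivity
      have h4 : 0 ≤ d2 x := by linarith
      positivity) (by
      intro x hx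
      have hx0 : 0 < x := by linarith [hx.1]
      have h2 := (abs_le.1 (hlog x (by linarith [hx.1]))).2
      have h3 : Real.log x ≤ Real.log 2 + Real.log T := by
        rw [← Real.log_mul (by norm_num) hT0.ne']
        exact Real.log_le_log hx0 hx.2
      have h4 : Real.log 2 ≤ 1 := by
        have := Real.log_two_lt_d9; linarith
      have h5 : dth x - y ≤ -1 := by linarith
      calc (dth x - y) / (2 * Real.pi) ≤ -1 / (2 * Real.pi) := by gcongr
        _ = -(1 / (2 * Real.pi)) := by ring)
    refine h1.trans ?_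
    have e2 : 1 / (Real.pi * (1 / (2 * Real.pi))) = 2 := by field_simp
    rw [e2]
    linarith

end

end HZU
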