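import Pool.Agent.Work.MP_c51bc2_nt_ub.Interface
import Pool.Agent.Work.MP_081200_nt.Div

/-! # CVL: the coefficients are controlled by their convolution with `1` -/

set_option autoImplicit false

open Finset Complex MeasureTheory HZS

namespace HZU

noncomputable section

theorem CVL_moeb (b : ℕ → ℂ) {n : ℕ} (hn : 0 < n) :
    ‖b n‖ ^ 2 ≤ (n.divisors.card : ℝ) * ∑ d ∈ n.divisors, ‖cv b d‖ ^ 2 := by
  have h1 := (ArithmeticFunction.sum_eq_iff_sum_mul_moebius_eq (f := b) (g := cv b)).1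
    (fun m _ => rfl) n hn
  rw [← h1]
  have h2 : ‖∑ x ∈ n.divisorsAntidiagonal, ((ArithmeticFunction.moebius x.1 : ℤ) : ℂ) * cv b x.2‖ ≤
      ∑ d ∈ n.divisors, ‖cv b d‖ := by
    refine (norm_sum_le _ _).trans ?_
    have h3 : ∑ x ∈ n.divisorsAntidiagonal,
        ‖((ArithmeticFunction.moebius x.1 : ℤ) : ℂ) * cv b x.2‖ ≤
        ∑ x ∈ n.divisorsAntidiagonal, ‖cv b x.2‖ := by
      apply Finset.sum_le_sum
      intro x _
      rw [norm_mul, Complex.norm_intCast]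
      have h4 : |((ArithmeticFunction.moebius x.1 : ℤ) : ℝ)| ≤ 1 := by
        have := ArithmeticFunction.abs_moebius_le_one (n := x.1)
        exact_mod_cast this
      calc |((ArithmeticFunction.moebius x.1 : ℤ) : ℝ)| * ‖cv b x.2‖ ≤ 1 * ‖cv b x.2‖ := by gcongr
        _ = ‖cv b x.2‖ := one_mul _
    refine h3.trans (le_of_eq ?_)
    exact Nat.sum_divisorsAntidiagonal' (f := fun _ d => ‖cv b d‖)
  calc ‖∑ x ∈ n.divisorsAntidiagonal, ((ArithmeticFunction.moebius x.1 : ℤ) : ℂ) * cv b x.2‖ ^ 2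
      ≤ (∑ d ∈ n.divisors, ‖cv b d‖) ^ 2 := by gcongr
    _ ≤ _ := sq_sum_le_card_mul_sum_sq

theorem CVL_harm (N : ℕ) : ∑ k ∈ Icc 1 N, 1 / (k : ℝ) ≤ 1 + Real.log N := by
  have h := harmonic_le_one_add_log N
  rw [harmonic_eq_sum_Icc] at h
  push_cast at h
  simpa [one_div] using h

theorem CVL_mult (N d : ℕ) (hd : 1 ≤ d) :
    ∑ n ∈ (Icc 1 N).filter (fun n => d ∣ n), 1 / (n : ℝ) ≤ 1 / (d : ℝ) * (1 + Real.log N) := by
  have h1 : (Icc 1 N).filter (fun n => d ∣ n) ⊆ (Icc 1 N).image (fun k => d * k) := by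
    intro n hn
    rw [Finset.mem_filter, Finset.mem_Icc] at hn
    obtain ⟨⟨hn1, hnN⟩, k, hk⟩ := hn
    rw [Finset.mem_image]
    refine ⟨k, ?_, hk.symm⟩
    rw [Finset.mem_Icc]
    constructor
    · rcases Nat.eq_zero_or_pos k with h | h
      · rw [h] at hk; omega
      · exact h
    · calc k ≤ d * k := Nat.le_mul_of_pos_left k (by omega)
        _ ≤ N := by rw [← hk]; exact hnN
  calc ∑ n ∈ (Icc 1 N).filter (fun n => d ∣ n), 1 / (n : ℝ)
      ≤ ∑ n ∈ (Icc 1 N).image (fun k => d * k), 1 / (n : ℝ) := by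
        apply Finset.sum_le_sum_of_subset_of_nonneg h1
        intro n _ _
        positivity
    _ = ∑ k ∈ Icc 1 N, 1 / ((d * k : ℕ) : ℝ) := by
        rw [Finset.sum_image]
        intro x _ y _ hxy
        exact Nat.eq_of_mul_eq_mul_left (by omega) hxy
    _ = 1 / (d : ℝ) * ∑ k ∈ Icc 1 N, 1 / (k : ℝ) := by
        rw [Finset.mul_sum]
        apply Finset.sum_congr rfl
        intro k _
        push_cast
        rw [one_div_mul_one_div]
    _ ≤ 1 / (d : ℝ) * (1 + Real.log N) := by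
        apply mul_le_mul_of_nonneg_left (CVL_harm N) (by positivity)

theorem stmt_CVL : Stmt_CVL := by
  intro ε hε
  obtain ⟨C1, hC1, hdiv⟩ := Pool.Agent.Work.MP_081200_nt.div_bound (ε / 2) (by positivity)
  refine ⟨C1 * (1 + 2 / ε), by positivity, ?_⟩
  intro N b hN
  have hN0 : (0 : ℝ) < N := by exact_mod_cast hN
  have hN1 : (1 : ℝ) ≤ N := by exact_mod_cast hN
  have hpow : (1 : ℝ) ≤ (N : ℝ) ^ (ε / 2) := Real.one_le_rpow hN1 (by positivity)
  have h1 : S2 b N ≤ ∑ n ∈ Icc 1 N, C1 * (N : ℝ) ^ (ε / 2) *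
      ∑ d ∈ n.divisors, ‖cv b d‖ ^ 2 * (1 / (n : ℝ)) := by
    unfold S2
    apply Finset.sum_le_sum
    intro n hn
    rw [Finset.mem_Icc] at hn
    have h2 := CVL_moeb b (n := n) (by omega)
    have h3 := hdiv n (by omega)
    have h4 : (n : ℝ) ^ (ε / 2) ≤ (N : ℝ) ^ (ε / 2) := by
      apply Real.rpow_le_rpow (Nat.cast_nonneg _) _ (by positivity)
      exact_mod_cast hn.2
    rw [← Finset.sum_mul, div_eq_mul_one_div, ← mul_assoc]
    apply mul_le_mul_of_nonneg_right _ (by positivity)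
    refine h2.trans ?_
    apply mul_le_mul_of_nonneg_right _ (by positivity)
    exact h3.trans (by gcongr)
  refine h1.trans ?_
  rw [← Finset.mul_sum]
  have h5 : ∑ n ∈ Icc 1 N, ∑ d ∈ n.divisors, ‖cv b d‖ ^ 2 * (1 / (n : ℝ)) ≤
      (1 + Real.log N) * S2 (cv b) N := by
    have h6 : ∀ n ∈ Icc 1 N, ∑ d ∈ n.divisors, ‖cv b d‖ ^ 2 * (1 / (n : ℝ)) =
        ∑ d ∈ Icc 1 N, if d ∣ n then ‖cv b d‖ ^ 2 * (1 / (n : ℝ)) else 0 := by
      intro n hn
      rw [Finset.mem_Icc] at hn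
      rw [← Finset.sum_filter]
      apply Finset.sum_congr _ fun _ _ => rfl
      ext d
      rw [Finset.mem_filter, Finset.mem_Icc, Nat.mem_divisors]
      constructor
      · rintro ⟨h, _⟩
        have := Nat.le_of_dvd (by omega) h
        have h3 := Nat.pos_of_dvd_of_pos h (by omega)
        exact ⟨⟨h3, by omega⟩, h⟩
      · rintro ⟨_, h⟩; exact ⟨h, by omega⟩
    rw [Finset.sum_congr rfl h6, Finset.sum_comm]
    unfold S2
    rw [Finset.mul_sum]
    apply Finset.sum_le_sum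
    intro d hd
    rw [Finset.mem_Icc] at hd
    rw [← Finset.sum_filter, ← Finset.mul_sum]
    calc ‖cv b d‖ ^ 2 * ∑ n ∈ (Icc 1 N).filter (fun n => d ∣ n), 1 / (n : ℝ)
        ≤ ‖cv b d‖ ^ 2 * (1 / (d : ℝ) * (1 + Real.log N)) := by
          apply mul_le_mul_of_nonneg_left (CVL_mult N d hd.1) (by positivity)
      _ = (1 + Real.log N) * (‖cv b d‖ ^ 2 / (d : ℝ)) := by ring
  have h7 : 1 + Real.log N ≤ (1 + 2 / ε) * (N : ℝ) ^ (ε / 2) := by
    have h8 := Real.log_le_rpow_div hN0.le (show 0 < ε / 2 by positivity)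
    have h9 : (N : ℝ) ^ (ε / 2) / (ε / 2) = 2 / ε * (N : ℝ) ^ (ε / 2) := by
      field_simp
    rw [h9] at h8
    linarith
  have hS : 0 ≤ S2 (cv b) N := by unfold S2; positivity
  calc C1 * (N : ℝ) ^ (ε / 2) * ∑ n ∈ Icc 1 N, ∑ d ∈ n.divisors, ‖cv b d‖ ^ 2 * (1 / (n : ℝ))
      ≤ C1 * (N : ℝ) ^ (ε / 2) * ((1 + 2 / ε) * (N : ℝ) ^ (ε / 2) * S2 (cv b) N) := by
        gcongr
        exact h5.trans (by gcongr)
    _ = C1 * (1 + 2 / ε) * ((N : ℝ) ^ (ε / 2) * (N : ℝ) ^ (ε / 2)) * S2 (cv b) N := by ring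
    _ = C1 * (1 + 2 / ε) * (N : ℝ) ^ ε * S2 (cv b) N := by
        rw [← Real.rpow_add hN0, add_halves]

end

end HZU
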