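import Pool.Agent.Work.MP_c51bc2_nt_ub.Interface
import Pool.Agent.Work.MP_c51bc2_nt.B_PHS

/-! # DTD: the derivative of `θ'` -/

set_option autoImplicit false

open Finset Complex MeasureTheory HZS Filter Topology

namespace HZU

noncomputable section

/-- the real part of the terms of the series of the digamma function -/
theorem DTD_re (n : ℕ) (t : ℝ) : (Pool.Agent.AQ.tm n (1 / 4 + I * (t : ℂ) / 2)).re =
    1 / ((n : ℝ) + 1) - ((n : ℝ) + 1 / 4) / (((n : ℝ) + 1 / 4) ^ 2 + (t / 2) ^ 2) := by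
  unfold Pool.Agent.AQ.tm
  have e1 : (1 : ℂ) / ((n : ℂ) + 1) = ((1 / ((n : ℝ) + 1) : ℝ) : ℂ) := by push_cast; ring
  rw [Complex.sub_re, e1, Complex.ofReal_re, one_div ((n : ℂ) + (1 / 4 + I * (t : ℂ) / 2)),
    Complex.inv_re, Complex.normSq_apply, Complex.add_re, Complex.add_im, PHS_re, PHS_im,
    natCast_re, natCast_im]
  congr 2
  ring

theorem DTD_term {u y : ℝ} (hu : 1 / 4 ≤ u) (hy : 0 < y) :
    1 / 6 * (1 / (u ^ 2 + y ^ 2) - 1 / ((u + 1) ^ 2 + y ^ 2)) ≤ u / (u ^ 2 + y ^ 2) ^ 2 := by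
  have h1 : 0 < u ^ 2 + y ^ 2 := by positivity
  have h2 : 0 < (u + 1) ^ 2 + y ^ 2 := by positivity
  have e1 : 1 / (u ^ 2 + y ^ 2) - 1 / ((u + 1) ^ 2 + y ^ 2) =
      (2 * u + 1) / ((u ^ 2 + y ^ 2) * ((u + 1) ^ 2 + y ^ 2)) := by
    rw [div_sub_div _ _ h1.ne' h2.ne']
    congr 1
    ring
  rw [e1]
  have h3 : (2 * u + 1) / ((u ^ 2 + y ^ 2) * ((u + 1) ^ 2 + y ^ 2)) ≤
      6 * u / ((u ^ 2 + y ^ 2) * (u ^ 2 + y ^ 2)) := by
    have h4 : 2 * u + 1 ≤ 6 * u := by linarith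
    have h5 : u ^ 2 + y ^ 2 ≤ (u + 1) ^ 2 + y ^ 2 := by nlinarith
    have h6 : 0 ≤ 6 * u := by linarith
    gcongr
  calc 1 / 6 * ((2 * u + 1) / ((u ^ 2 + y ^ 2) * ((u + 1) ^ 2 + y ^ 2)))
      ≤ 1 / 6 * (6 * u / ((u ^ 2 + y ^ 2) * (u ^ 2 + y ^ 2))) := by gcongr
    _ = u / (u ^ 2 + y ^ 2) ^ 2 := by
      rw [← sq]; ring

theorem DTD_diff {s t : ℝ} (ht : 1 ≤ t) (hts : t < s) :
    1 / (15 * s) * (s - t) ≤ dth s - dth t := by
  set r : ℕ → ℝ := fun n => (Pool.Agent.AQ.tm n (1 / 4 + I * (s : ℂ) / 2)).re -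
    (Pool.Agent.AQ.tm n (1 / 4 + I * (t : ℂ) / 2)).re with hr
  have hs1 : HasSum r ((Complex.digamma (1 / 4 + I * (s : ℂ) / 2)).re -
      (Complex.digamma (1 / 4 + I * (t : ℂ) / 2)).re) := by
    have h1 := Complex.hasSum_re (Pool.Agent.AQ.tm_summable (PHS_pos s)).hasSum
    have h2 := Complex.hasSum_re (Pool.Agent.AQ.tm_summable (PHS_pos t)).hasSum
    have h3 := h1.sub h2
    rw [Pool.Agent.AQ.series (PHS_pos s), Pool.Agent.AQ.series (PHS_pos t), Complex.add_re,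
      Complex.add_re, add_sub_add_left_eq_sub]
    exact h3
  set q : ℝ := (s / 2) ^ 2 - (t / 2) ^ 2 with hq
  have hq0 : 0 < q := by rw [hq]; nlinarith
  set y : ℝ := s / 2 with hy
  have hy0 : 0 < y := by rw [hy]; linarith
  have hrn : ∀ n : ℕ, q * (1 / 6 * (1 / (((n : ℝ) + 1 / 4) ^ 2 + y ^ 2) -
      1 / (((n : ℝ) + 1 / 4 + 1) ^ 2 + y ^ 2))) ≤ r n := by
    intro n
    have hn : (0 : ℝ) ≤ n := Nat.cast_nonneg n
    set u : ℝ := (n : ℝ) + 1 / 4 with hu
    have hu0 : 1 / 4 ≤ u := by rw [hu]; linarith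
    have h1 : 0 < u ^ 2 + y ^ 2 := by positivity
    have h2 : 0 < u ^ 2 + (t / 2) ^ 2 := by positivity
    have e1 : r n = q * (u / ((u ^ 2 + (t / 2) ^ 2) * (u ^ 2 + y ^ 2))) := by
      rw [hr]
      simp only
      rw [DTD_re, DTD_re, ← hy, ← hu]
      have e2 : 1 / ((n : ℝ) + 1) - u / (u ^ 2 + y ^ 2) - (1 / ((n : ℝ) + 1) -
          u / (u ^ 2 + (t / 2) ^ 2)) = u / (u ^ 2 + (t / 2) ^ 2) - u / (u ^ 2 + y ^ 2) := by ring
      rw [e2, div_sub_div _ _ h2.ne' h1.ne', hq, ← mul_div_assoc]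
      congr 1
      ring
    rw [e1]
    apply mul_le_mul_of_nonneg_left _ hq0.le
    refine (DTD_term hu0 hy0).trans ?_
    have h3 : u ^ 2 + (t / 2) ^ 2 ≤ u ^ 2 + y ^ 2 := by rw [hq] at hq0; linarith
    rw [sq (u ^ 2 + y ^ 2)]
    gcongr
  have hr0 : ∀ n, 0 ≤ r n := by
    intro n
    refine le_trans ?_ (hrn n)
    have hn : (0 : ℝ) ≤ n := Nat.cast_nonneg n
    apply mul_nonneg hq0.le
    apply mul_nonneg (by norm_num)
    rw [sub_nonneg]
    apply one_div_le_one_div_of_le (by positivity)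
    nlinarith
  have hpart : ∀ n : ℕ, q * (1 / 6 * (1 / ((1 / 4) ^ 2 + y ^ 2) -
      1 / (((n : ℝ) + 1 / 4) ^ 2 + y ^ 2))) ≤ ∑ i ∈ range n, r i := by
    intro n
    induction n with
    | zero => simp
    | succ n ih =>
      rw [sum_range_succ]
      have h1 := hrn n
      have e1 : (((n + 1 : ℕ) : ℝ) + 1 / 4) = (n : ℝ) + 1 / 4 + 1 := by push_cast; ring
      rw [e1]
      have e2 : q * (1 / 6 * (1 / ((1 / 4) ^ 2 + y ^ 2) -
          1 / (((n : ℝ) + 1 / 4 + 1) ^ 2 + y ^ 2))) =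
          q * (1 / 6 * (1 / ((1 / 4) ^ 2 + y ^ 2) - 1 / (((n : ℝ) + 1 / 4) ^ 2 + y ^ 2))) +
          q * (1 / 6 * (1 / (((n : ℝ) + 1 / 4) ^ 2 + y ^ 2) -
            1 / (((n : ℝ) + 1 / 4 + 1) ^ 2 + y ^ 2))) := by ring
      rw [e2]
      linarith
  have hlim : Tendsto (fun n : ℕ => q * (1 / 6 * (1 / ((1 / 4) ^ 2 + y ^ 2) -
      1 / (((n : ℝ) + 1 / 4) ^ 2 + y ^ 2)))) atTop
      (𝓝 (q * (1 / 6 * (1 / ((1 / 4) ^ 2 + y ^ 2) - 0)))) := by
    have h1 : Tendsto (fun n : ℕ => ((n : ℝ) + 1 / 4) ^ 2 + y ^ 2) atTop atTop := by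
      apply tendsto_atTop_mono _ tendsto_natCast_atTop_atTop
      intro n
      have hn : (0 : ℝ) ≤ n := Nat.cast_nonneg n
      nlinarith [sq_nonneg ((n : ℝ) - 1 / 4)]
    have h2 : Tendsto (fun n : ℕ => 1 / (((n : ℝ) + 1 / 4) ^ 2 + y ^ 2)) atTop (𝓝 0) :=
      tendsto_const_nhds.div_atTop h1
    exact ((tendsto_const_nhds.sub h2).const_mul _).const_mul _
  have htot := le_of_tendsto' hlim (fun n => (hpart n).trans
    (sum_le_hasSum _ (fun i _ => hr0 i) hs1))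
  have e3 : dth s - dth t = ((Complex.digamma (1 / 4 + I * (s : ℂ) / 2)).re -
      (Complex.digamma (1 / 4 + I * (t : ℂ) / 2)).re) / 2 := by
    unfold dth; ring
  rw [e3]
  have hs0 : 0 < s := by linarith
  have h4 : 1 / (15 * s) * (s - t) ≤ q * (1 / 6 * (1 / ((1 / 4) ^ 2 + y ^ 2) - 0)) / 2 := by
    have e4 : q * (1 / 6 * (1 / ((1 / 4) ^ 2 + y ^ 2) - 0)) / 2 =
        (s - t) * ((s + t) / (3 + 12 * s ^ 2)) := by
      rw [hq, hy]
      field_simp
      ring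
    rw [e4, mul_comm]
    apply mul_le_mul_of_nonneg_left _ (by linarith)
    rw [div_le_div_iff₀ (by positivity) (by positivity)]
    nlinarith
  linarith

theorem DTD_deriv (t : ℝ) :
    HasDerivAt dth (-(deriv Complex.digamma (1 / 4 + I * (t : ℂ) / 2)).im / 4) t := by
    have h1 := (Pool.Agent.AQ.diff_digamma (PHS_pos t)).hasDerivAt
    have h3 : HasDerivAt (fun s : ℂ => 1 / 4 + I * s / 2) (I / 2) (t : ℂ) := by
      have := (((hasDerivAt_id (t : ℂ)).const_mul (I)).div_const 2).const_add (1 / 4 : ℂ)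
      simpa using this
    have h4 := (HasDerivAt.comp (t : ℂ) h1 h3).comp_ofReal
    have h5 : HasDerivAt (fun s : ℝ => (Complex.digamma (1 / 4 + I * (s : ℂ) / 2)).re)
        (deriv Complex.digamma (1 / 4 + I * (t : ℂ) / 2) * (I / 2)).re t := by
      have h6 := Complex.reCLM.hasFDerivAt.comp_hasDerivAt t h4
      exact h6
    have h7 := (h5.div_const 2).const_add (-(Real.log Real.pi) / 2)
    have e1 : (deriv Complex.digamma (1 / 4 + I * (t : ℂ) / 2) * (I / 2)).re / 2 =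
        -(deriv Complex.digamma (1 / 4 + I * (t : ℂ) / 2)).im / 4 := by
      generalize deriv Complex.digamma (1 / 4 + I * (t : ℂ) / 2) = w
      have e2 : w * (I / 2) = ((1 / 2 : ℝ) : ℂ) * (w * I) := by push_cast; ring
      rw [e2, Complex.re_ofReal_mul, Complex.mul_I_re]
      ring
    rw [e1] at h7
    exact h7

theorem stmt_DTD : Stmt_DTD := by
  refine ⟨fun t => -(deriv Complex.digamma (1 / 4 + I * (t : ℂ) / 2)).im / 4, DTD_deriv, ?_, ?_⟩
  · have hU : IsOpen {w : ℂ | 0 < w.re} := isOpen_lt continuous_const Complex.continuous_re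
    have hd : DifferentiableOn ℂ Complex.digamma {w : ℂ | 0 < w.re} := fun w hw =>
      (Pool.Agent.AQ.diff_digamma hw).differentiableWithinAt
    have hd2 := (hd.deriv hU).continuousOn
    have h3 : Continuous fun t : ℝ => deriv Complex.digamma (1 / 4 + I * (t : ℂ) / 2) := by
      apply hd2.comp_continuous (by fun_prop)
      intro t
      exact PHS_pos t
    exact ((Complex.continuous_im.comp h3).neg).div_const 4
  · intro t ht
    have h1 := (hasDerivAt_iff_tendsto_slope.1 (DTD_deriv t)).mono_left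
      (nhdsWithin_mono t (fun s (hs : s ∈ Set.Ioi t) => (ne_of_gt hs : s ≠ t)))
    have h2 : Tendsto (fun s : ℝ => 1 / (15 * s)) (𝓝[Set.Ioi t] t) (𝓝 (1 / (15 * t))) := by
      have h3 : ContinuousAt (fun s : ℝ => 1 / (15 * s)) t := by
        apply ContinuousAt.div continuousAt_const (by fun_prop)
        positivity
      exact h3.tendsto.mono_left nhdsWithin_le_nhds
    apply le_of_tendsto_of_tendsto h2 h1
    filter_upwards [self_mem_nhdsWithin] with s hs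
    have hs' : t < s := hs
    rw [slope_def_field, le_div_iff₀ (by linarith)]
    exact DTD_diff ht hs'

end

end HZU
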