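import Pool.Agent.Work.MP_c51bc2_nt_ub.Base

/-! # FIN: the theorem for Hardy's function -/

set_option autoImplicit false

open Finset Complex MeasureTheory HZS

namespace HZU

noncomputable section

theorem FIN_Ax (a : ℕ → ℂ) (N : ℕ) (t : ℝ) :
    Ax a N t = D (fun n => ((Real.sqrt n : ℝ) : ℂ) * a n) N t := by
  unfold Ax D
  apply Finset.sum_congr rfl
  intro n hn
  have hn1 := (Finset.mem_Icc.1 hn).1
  have hn0 : (n : ℂ) ≠ 0 := by exact_mod_cast (by omega : n ≠ 0)
  have hs : (0 : ℝ) < Real.sqrt n := Real.sqrt_pos.2 (by exact_mod_cast hn1)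
  rw [TF_mo hn1, Complex.cpow_def_of_ne_zero hn0, ← Complex.natCast_log]
  have e1 : ((Real.sqrt n : ℝ) : ℂ) * a n * (((1 / Real.sqrt n : ℝ) : ℂ) *
      cexp (((-Real.log n : ℝ) : ℂ) * I * t)) =
      (((Real.sqrt n * (1 / Real.sqrt n) : ℝ)) : ℂ) * (a n *
      cexp (((-Real.log n : ℝ) : ℂ) * I * t)) := by push_cast; ring
  rw [e1, mul_one_div_cancel hs.ne', Complex.ofReal_one, one_mul]
  congr 2
  push_cast
  ring

theorem FIN_S2 (a : ℕ → ℂ) (N : ℕ) :
    S2 (fun n => ((Real.sqrt n : ℝ) : ℂ) * a n) N = ∑ n ∈ Icc 1 N, ‖a n‖ ^ 2 := by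
  unfold S2
  apply Finset.sum_congr rfl
  intro n hn
  have hn0 : (0 : ℝ) < n := by exact_mod_cast (Finset.mem_Icc.1 hn).1
  rw [norm_mul, Complex.norm_real, Real.norm_of_nonneg (Real.sqrt_nonneg _), mul_pow,
    Real.sq_sqrt hn0.le, mul_div_cancel_left₀ _ hn0.ne']

theorem stmt_FIN (hQFB : Stmt_QFB) (hLOW : Stmt_LOW) (hZC : Stmt_ZC) : Stmt_FIN := by
  intro ε hε
  obtain ⟨Cq, Tq, hCq, hTq, hq⟩ := hQFB
  set δ : ℝ := min (ε / 2) (1 / 8) with hδ
  have hδ0 : 0 < δ := lt_min (by positivity) (by norm_num)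
  have hδ1 : δ ≤ ε / 2 := min_le_left _ _
  have hδ2 : δ ≤ 1 / 8 := min_le_right _ _
  obtain ⟨Cl, Tl, hCl, hTl, hl⟩ := hLOW δ hδ0 hδ2
  set C' : ℝ := 1 + Cq * Cl with hC'
  have hC'0 : 0 < C' := by positivity
  refine ⟨C' + 4 * Cl, max (max Tq Tl) ((2 * C') ^ (2 / ε)), by positivity,
    lt_max_of_lt_left (lt_max_of_lt_left hTq), ?_⟩
  intro T N a hT hN
  have hTa : Tq ≤ T := ((le_max_left _ _).trans (le_max_left _ _)).trans hT
  have hTb : Tl ≤ T := ((le_max_right _ _).trans (le_max_left _ _)).trans hT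
  have hTc : (2 * C') ^ (2 / ε) ≤ T := (le_max_right _ _).trans hT
  have hT1 : 1 < T := lt_of_lt_of_le hTq hTa
  have hT0 : 0 < T := by linarith
  have hTT : T ≤ 2 * T := by linarith
  have hN0 : (0 : ℝ) < N := by exact_mod_cast hN
  set b : ℕ → ℂ := fun n => ((Real.sqrt n : ℝ) : ℂ) * a n with hb
  have hZc : Continuous Z := hZC
  have hDb : Continuous (D b N) := TF_D_cont b N
  simp_rw [FIN_Ax a N, ← hb, ← FIN_S2 a N]
  rw [← hb]
  set P := ∫ t in T..(2 * T), max (Z t) 0 * ‖D b N t‖ ^ 2 with hP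
  set M := ∫ t in T..(2 * T), min (Z t) 0 * ‖D b N t‖ ^ 2 with hM
  have hPi : IntervalIntegrable (fun t => max (Z t) 0 * ‖D b N t‖ ^ 2) volume T (2 * T) :=
    Continuous.intervalIntegrable (by fun_prop) _ _
  have hMi : IntervalIntegrable (fun t => min (Z t) 0 * ‖D b N t‖ ^ 2) volume T (2 * T) :=
    Continuous.intervalIntegrable (by fun_prop) _ _
  have hPM : P + M = ∫ t in T..(2 * T), Z t * ‖D b N t‖ ^ 2 := by
    rw [hP, hM, ← intervalIntegral.integral_add hPi hMi]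
    apply intervalIntegral.integral_congr
    intro t _
    simp only
    rw [← add_mul]
    congr 1
    rcases le_total (Z t) 0 with h | h
    · rw [max_eq_right h, min_eq_left h]; ring
    · rw [max_eq_left h, min_eq_right h]; ring
  have hPM2 : P - M = ∫ t in T..(2 * T), |Z t| * ‖D b N t‖ ^ 2 := by
    rw [hP, hM, ← intervalIntegral.integral_sub hPi hMi]
    apply intervalIntegral.integral_congr
    intro t _
    simp only
    rw [← sub_mul]
    congr 1
    rcases le_total (Z t) 0 with h | h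
    · rw [max_eq_right h, min_eq_left h, abs_of_nonpos h]; ring
    · rw [max_eq_left h, min_eq_right h, abs_of_nonneg h]; ring
  have hP0 : 0 ≤ P := intervalIntegral.integral_nonneg hTT (fun t _ => by positivity)
  have hM0 : M ≤ 0 := by
    have h1 : 0 ≤ ∫ t in T..(2 * T), -(min (Z t) 0 * ‖D b N t‖ ^ 2) := by
      apply intervalIntegral.integral_nonneg hTT
      intro t _
      have h2 : min (Z t) 0 ≤ 0 := min_le_right _ _
      have h3 : 0 ≤ ‖D b N t‖ ^ 2 := by positivity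
      nlinarith
    rw [intervalIntegral.integral_neg] at h1
    linarith
  have hPM0 : 0 ≤ P - M := by linarith
  have hkey : |P + M| ≤ C' * (N : ℝ) * T ^ (-(1 / 4) + ε / 2) * (P - M) := by
    have hexp : T ^ (-(1 / 4) + δ) ≤ T ^ (-(1 / 4) + ε / 2) :=
      Real.rpow_le_rpow_of_exponent_le hT1.le (by linarith)
    rcases le_or_gt (N : ℝ) (T ^ (1 / 4 - δ)) with hNT | hNT
    · have h1 := hl T N b hTb hN hNT
      rw [← hPM2] at h1
      have h2 := hq T N b hTa
      rw [← hPM] at h2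
      have h3 : T ^ (3 / 4 : ℝ) = T ^ (-(1 / 4) + δ) * T ^ (1 - δ) := by
        rw [← Real.rpow_add hT0]
        congr 1
        ring
      calc |P + M| ≤ Cq * T ^ (3 / 4 : ℝ) * (N * S2 b N) := h2
        _ = Cq * N * T ^ (-(1 / 4) + δ) * (T ^ (1 - δ) * S2 b N) := by rw [h3]; ring
        _ ≤ Cq * N * T ^ (-(1 / 4) + δ) * (Cl * (P - M)) := by gcongr
        _ = (Cq * Cl) * N * T ^ (-(1 / 4) + δ) * (P - M) := by ring
        _ ≤ C' * N * T ^ (-(1 / 4) + ε / 2) * (P - M) := by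
            have : Cq * Cl ≤ C' := by rw [hC']; linarith
            gcongr
    · have h1 : 1 ≤ (N : ℝ) * T ^ (-(1 / 4) + ε / 2) := by
        calc (1 : ℝ) = T ^ (1 / 4 - δ) * T ^ (-(1 / 4) + δ) := by
              rw [← Real.rpow_add hT0, show (1 / 4 - δ + (-(1 / 4) + δ) : ℝ) = 0 by ring,
                Real.rpow_zero]
          _ ≤ (N : ℝ) * T ^ (-(1 / 4) + ε / 2) := by gcongr
      have h2 : |P + M| ≤ P - M := by
        rw [abs_le]
        constructor <;> linarith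
      have h3 : 1 ≤ C' := by rw [hC']; linarith [mul_pos hCq hCl]
      have h4 : 1 ≤ C' * (N : ℝ) * T ^ (-(1 / 4) + ε / 2) := by
        rw [mul_assoc]
        exact one_le_mul_of_one_le_of_one_le h3 h1
      calc |P + M| ≤ 1 * (P - M) := by linarith
        _ ≤ C' * (N : ℝ) * T ^ (-(1 / 4) + ε / 2) * (P - M) := by gcongr
  constructor
  · refine hkey.trans ?_
    have hexp : T ^ (-(1 / 4) + ε / 2) ≤ T ^ (-(1 / 4) + ε) :=
      Real.rpow_le_rpow_of_exponent_le hT1.le (by linarith)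
    gcongr
    linarith
  · intro hNT
    have hNT' : (N : ℝ) ≤ T ^ (1 / 4 - δ) := hNT.trans
      (Real.rpow_le_rpow_of_exponent_le hT1.le (by linarith))
    have h1 := hl T N b hTb hN hNT'
    rw [← hPM2] at h1
    have h2 : T ^ (1 - ε) * S2 b N ≤ Cl * (P - M) := by
      refine le_trans ?_ h1
      apply mul_le_mul_of_nonneg_right _ (S2_nonneg b N)
      exact Real.rpow_le_rpow_of_exponent_le hT1.le (by linarith)
    have h3 : 2 * C' ≤ T ^ (ε / 2) := by
      calc 2 * C' = ((2 * C') ^ (2 / ε)) ^ (ε / 2) := by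
            rw [← Real.rpow_mul (by positivity), show (2 / ε * (ε / 2) : ℝ) = 1 by field_simp,
              Real.rpow_one]
        _ ≤ T ^ (ε / 2) := Real.rpow_le_rpow (by positivity) hTc (by positivity)
    have h4 : C' * (N : ℝ) * T ^ (-(1 / 4) + ε / 2) ≤ 1 / 2 := by
      have h5 : T ^ (1 / 4 - ε) * T ^ (-(1 / 4) + ε / 2) * T ^ (ε / 2) = 1 := by
        rw [← Real.rpow_add hT0, ← Real.rpow_add hT0,
          show (1 / 4 - ε + (-(1 / 4) + ε / 2) + ε / 2 : ℝ) = 0 by ring, Real.rpow_zero]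
      have h6 : C' * (N : ℝ) * T ^ (-(1 / 4) + ε / 2) * T ^ (ε / 2) ≤ C' := by
        calc C' * (N : ℝ) * T ^ (-(1 / 4) + ε / 2) * T ^ (ε / 2)
            ≤ C' * T ^ (1 / 4 - ε) * T ^ (-(1 / 4) + ε / 2) * T ^ (ε / 2) := by gcongr
          _ = C' * (T ^ (1 / 4 - ε) * T ^ (-(1 / 4) + ε / 2) * T ^ (ε / 2)) := by ring
          _ = C' := by rw [h5, mul_one]
      have h7 : 0 ≤ C' * (N : ℝ) * T ^ (-(1 / 4) + ε / 2) := by positivity
      by_contra hcon
      push Not at hcon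
      have h8 : 1 / 2 * (2 * C') < C' * (N : ℝ) * T ^ (-(1 / 4) + ε / 2) * T ^ (ε / 2) := by
        apply mul_lt_mul hcon h3 (by positivity) h7
      linarith
    have h5 : |P + M| ≤ 1 / 2 * (P - M) := hkey.trans (by gcongr)
    have h6 := abs_le.1 h5
    have h7 : P - M ≤ 4 * P := by linarith [h6.1]
    have h8 : P - M ≤ 4 * -M := by linarith [h6.2]
    have h9 : 0 ≤ C' * P := by positivity
    have h10 : 0 ≤ C' * -M := mul_nonneg hC'0.le (by linarith)
    constructor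
    · calc T ^ (1 - ε) * S2 b N ≤ Cl * (P - M) := h2
        _ ≤ Cl * (4 * P) := by gcongr
        _ ≤ (C' + 4 * Cl) * P := by linarith
    · calc T ^ (1 - ε) * S2 b N ≤ Cl * (P - M) := h2
        _ ≤ Cl * (4 * -M) := by gcongr
        _ ≤ (C' + 4 * Cl) * -M := by linarith

end

end HZU
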