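import Pool.Agent.Work.MP_c51bc2_nt_ub.Base
import Pool.Agent.Work.MP_081200_nt.Div

/-! # G4: the fourth moment of a short Dirichlet polynomial -/

set_option autoImplicit false

open Finset Complex MeasureTheory HZS
open Pool.Agent.Work.MP_e9b29d_nt (ES mean_value_log)

namespace HZU

noncomputable section

/-- the pairs with product `k` -/
def pr (N k : ℕ) : Finset (ℕ × ℕ) := (Icc 1 N ×ˢ Icc 1 N).filter (fun p => p.1 * p.2 = k)

/-- the coefficients of the square -/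
def gg (b : ℕ → ℂ) (N k : ℕ) : ℂ := ∑ p ∈ pr N k, co b p.1 * co b p.2

theorem G4_maps (N : ℕ) : ∀ p ∈ Icc 1 N ×ˢ Icc 1 N, p.1 * p.2 ∈ Icc 1 (N ^ 2) := by
  intro p hp
  rw [Finset.mem_product, Finset.mem_Icc, Finset.mem_Icc] at hp
  rw [Finset.mem_Icc]
  constructor
  · exact Nat.mul_pos hp.1.1 hp.2.1
  · rw [sq]
    exact Nat.mul_le_mul hp.1.2 hp.2.2

theorem G4_sq (b : ℕ → ℂ) (N : ℕ) (t : ℝ) :
    D b N t ^ 2 = ES (Icc 1 (N ^ 2)) (gg b N) (fun n => -Real.log n) t := by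
  rw [D_ES]
  unfold ES gg
  have e1 : ∀ k ∈ Icc 1 (N ^ 2), (∑ p ∈ pr N k, co b p.1 * co b p.2) *
      cexp (((-Real.log k * t : ℝ) : ℂ) * I) = ∑ p ∈ pr N k,
        (co b p.1 * cexp (((-Real.log p.1 * t : ℝ) : ℂ) * I)) *
          (co b p.2 * cexp (((-Real.log p.2 * t : ℝ) : ℂ) * I)) := by
    intro k _
    rw [Finset.sum_mul]
    apply Finset.sum_congr rfl
    intro p hp
    unfold pr at hp
    rw [Finset.mem_filter, Finset.mem_product, Finset.mem_Icc, Finset.mem_Icc] at hp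
    obtain ⟨⟨h1, h2⟩, h3⟩ := hp
    have e2 : Real.log k = Real.log p.1 + Real.log p.2 := by
      rw [← h3]
      push_cast
      exact Real.log_mul (by exact_mod_cast (by omega : p.1 ≠ 0))
        (by exact_mod_cast (by omega : p.2 ≠ 0))
    rw [e2]
    have e3 : ((-(Real.log p.1 + Real.log p.2) * t : ℝ) : ℂ) * I =
        ((-Real.log p.1 * t : ℝ) : ℂ) * I + ((-Real.log p.2 * t : ℝ) : ℂ) * I := by
      push_cast; ring
    rw [e3, Complex.exp_add]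
    ring
  rw [Finset.sum_congr rfl e1]
  unfold pr
  rw [Finset.sum_fiberwise_of_maps_to (G4_maps N), Finset.sum_product, sq, Finset.sum_mul_sum]

theorem G4_card (N k : ℕ) (hk : 1 ≤ k) : (pr N k).card ≤ k.divisors.card := by
  apply Finset.card_le_card_of_injOn (fun p => p.1)
  · intro p hp
    have hp' : p ∈ pr N k := hp
    unfold pr at hp'
    rw [Finset.mem_filter] at hp'
    show p.1 ∈ k.divisors
    rw [Nat.mem_divisors]
    exact ⟨⟨p.2, hp'.2.symm⟩, by omega⟩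
  · intro p hp q hq hpq
    have hp' : p ∈ pr N k := hp
    have hq' : q ∈ pr N k := hq
    unfold pr at hp' hq'
    rw [Finset.mem_filter, Finset.mem_product, Finset.mem_Icc, Finset.mem_Icc] at hp' hq'
    have hpq' : p.1 = q.1 := hpq
    have h1 : p.1 * p.2 = p.1 * q.2 := by
      rw [hp'.2]
      rw [hpq']
      exact hq'.2.symm
    have h2 : p.2 = q.2 := Nat.eq_of_mul_eq_mul_left (by omega) h1
    exact Prod.ext hpq' h2

theorem stmt_G4 : Stmt_G4 := by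
  intro ε hε
  obtain ⟨C1, hC1, hdiv⟩ := Pool.Agent.Work.MP_081200_nt.div_bound ε hε
  refine ⟨9 * C1, by positivity, ?_⟩
  intro T N b hT hN hNT
  have hT0 : 0 < T := by linarith
  have hTT : T ≤ 2 * T := by linarith
  have hN1 : (1 : ℝ) ≤ N := by exact_mod_cast hN
  have hN2 : 1 ≤ N ^ 2 := Nat.one_le_pow _ _ (by omega)
  have h1 : ∀ t : ℝ, ‖D b N t‖ ^ 4 =
      ‖ES (Icc 1 (N ^ 2)) (gg b N) (fun n => -Real.log n) t‖ ^ 2 := by
    intro t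
    rw [← G4_sq, norm_pow]
    ring
  simp_rw [h1]
  have h2 := mean_value_log hN2 (S := Icc 1 (N ^ 2)) (Finset.Subset.refl _) (gg b N) hTT
  have h3 : ∀ k ∈ Icc 1 (N ^ 2), ‖gg b N k‖ ^ 2 ≤ C1 * T ^ ε *
      ∑ p ∈ pr N k, ‖co b p.1‖ ^ 2 * ‖co b p.2‖ ^ 2 := by
    intro k hk
    rw [Finset.mem_Icc] at hk
    have h4 : ‖gg b N k‖ ≤ ∑ p ∈ pr N k, ‖co b p.1 * co b p.2‖ := norm_sum_le _ _
    have h5 : ‖gg b N k‖ ^ 2 ≤ ((pr N k).card : ℝ) * ∑ p ∈ pr N k, ‖co b p.1 * co b p.2‖ ^ 2 :=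
      calc ‖gg b N k‖ ^ 2 ≤ (∑ p ∈ pr N k, ‖co b p.1 * co b p.2‖) ^ 2 := by gcongr
        _ ≤ _ := sq_sum_le_card_mul_sum_sq
    refine h5.trans ?_
    have h6 : ((pr N k).card : ℝ) ≤ C1 * T ^ ε := by
      have h7 : ((pr N k).card : ℝ) ≤ (k.divisors.card : ℝ) := by
        exact_mod_cast G4_card N k hk.1
      have h8 := hdiv k (by omega)
      have h9 : (k : ℝ) ≤ T := by
        have h10 : (k : ℝ) ≤ (N : ℝ) ^ 2 := by exact_mod_cast hk.2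
        have h11 : (N : ℝ) ^ 2 ≤ (N : ℝ) ^ 4 := pow_le_pow_right₀ hN1 (by norm_num)
        linarith
      have h12 : (k : ℝ) ^ ε ≤ T ^ ε := Real.rpow_le_rpow (Nat.cast_nonneg _) h9 hε.le
      calc ((pr N k).card : ℝ) ≤ C1 * (k : ℝ) ^ ε := h7.trans h8
        _ ≤ C1 * T ^ ε := by gcongr
    have h13 : ∑ p ∈ pr N k, ‖co b p.1 * co b p.2‖ ^ 2 =
        ∑ p ∈ pr N k, ‖co b p.1‖ ^ 2 * ‖co b p.2‖ ^ 2 := by
      apply Finset.sum_congr rfl
      intro p _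
      rw [norm_mul, mul_pow]
    rw [h13]
    gcongr
  have h4 : ∑ k ∈ Icc 1 (N ^ 2), ‖gg b N k‖ ^ 2 ≤ C1 * T ^ ε * S2 b N ^ 2 := by
    refine (Finset.sum_le_sum h3).trans (le_of_eq ?_)
    rw [← Finset.mul_sum]
    unfold pr
    rw [Finset.sum_fiberwise_of_maps_to (G4_maps N) (f := fun p => ‖co b p.1‖ ^ 2 * ‖co b p.2‖ ^ 2),
      Finset.sum_product, S2_co, sq (∑ n ∈ Icc 1 N, ‖co b n‖ ^ 2), Finset.sum_mul_sum]
  have h5 : (2 * T - T) + 4 * ((N ^ 2 : ℕ) : ℝ) * (1 + Real.log ((N ^ 2 : ℕ) : ℝ)) ≤ 9 * T := by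
    push_cast
    have h6 : Real.log ((N : ℝ) ^ 2) ≤ (N : ℝ) ^ 2 - 1 :=
      Real.log_le_sub_one_of_pos (by positivity)
    have h7 : 4 * (N : ℝ) ^ 2 * (1 + Real.log ((N : ℝ) ^ 2)) ≤ 4 * (N : ℝ) ^ 2 * (N : ℝ) ^ 2 := by
      gcongr
      linarith
    have h8 : 4 * (N : ℝ) ^ 2 * (N : ℝ) ^ 2 = 4 * (N : ℝ) ^ 4 := by ring
    linarith
  refine h2.trans ?_
  have h9 : 0 ≤ ∑ k ∈ Icc 1 (N ^ 2), ‖gg b N k‖ ^ 2 := by positivity
  calc _ ≤ 9 * T * (C1 * T ^ ε * S2 b N ^ 2) := by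
        apply mul_le_mul h5 h4 h9 (by positivity)
    _ = 9 * C1 * (T ^ (1 : ℝ) * T ^ ε) * S2 b N ^ 2 := by rw [Real.rpow_one]; ring
    _ = 9 * C1 * T ^ (1 + ε) * S2 b N ^ 2 := by rw [← Real.rpow_add hT0]

end

end HZU
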