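import Pool.Agent.Work.MP_c51bc2_nt_ub.Base

/-! # OFF: the twisted first moment of `ζ` -/

set_option autoImplicit false

open Finset Complex MeasureTheory HZS

namespace HZU

noncomputable section

theorem OFF_N0 {T : ℝ} (hT : 1 ≤ T) : ∑ k ∈ Icc 1 (N0 T), 1 / Real.sqrt k ≤ 6 * Real.sqrt T := by
  have hT0 : 0 < T := by linarith
  refine (TF_sqrt _).trans ?_
  have h12 : ((N0 T : ℕ) : ℝ) ≤ 9 * T := by
    unfold N0
    push_cast
    have := Nat.ceil_lt_add_one (show (0 : ℝ) ≤ 3 * T by positivity)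
    linarith
  have h13 : Real.sqrt (N0 T) ≤ 3 * Real.sqrt T := by
    have h14 : (9 : ℝ) * T = (3 * Real.sqrt T) ^ 2 := by
      rw [mul_pow, Real.sq_sqrt hT0.le]; norm_num
    rw [h14] at h12
    exact Real.sqrt_le_iff.2 ⟨by positivity, h12⟩
  linarith

theorem OFF_off {n m k Y : ℕ} (hn : 1 ≤ n) (hm : 1 ≤ m) (hk : 1 ≤ k) (hY : k ≤ Y)
    (h : n * m ≠ k) (T : ℝ) :
    ‖∫ t in T..(2 * T), mo n t * mo m t * (starRingEnd ℂ) (mo k t)‖ ≤
      1 / Real.sqrt n * (1 / Real.sqrt m) * (1 / Real.sqrt k) * (4 * Y) := by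
  have hnm : 1 ≤ n * m := Nat.one_le_iff_ne_zero.mpr (by positivity)
  have hlog := TF_log hnm hk hY h
  set w : ℝ := Real.log k - Real.log (n * m : ℕ) with hw
  have hYpos : (0 : ℝ) < Y := by exact_mod_cast (by omega : 0 < Y)
  have hw0 : w ≠ 0 := by
    intro h0
    rw [h0, abs_zero] at hlog
    have : (0 : ℝ) < 1 / (2 * Y) := by positivity
    linarith
  simp_rw [TF_prod hn hm hk]
  rw [intervalIntegral.integral_const_mul, norm_mul, Complex.norm_real]
  have hc : ((w : ℝ) : ℂ) * I ≠ 0 := mul_ne_zero (by exact_mod_cast hw0) I_ne_zero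
  rw [← hw, integral_exp_mul_complex hc, Real.norm_of_nonneg (by positivity)]
  have h2 : ‖(cexp (((w : ℝ) : ℂ) * I * ((2 * T : ℝ) : ℂ)) - cexp (((w : ℝ) : ℂ) * I * (T : ℂ))) /
      (((w : ℝ) : ℂ) * I)‖ ≤ 4 * Y := by
    rw [norm_div, norm_mul, Complex.norm_I, mul_one, Complex.norm_real, Real.norm_eq_abs]
    have he : ∀ s : ℝ, ‖cexp (((w : ℝ) : ℂ) * I * (s : ℂ))‖ = 1 := by
      intro s
      rw [Complex.norm_exp]
      simp
    have h3 : ‖cexp (((w : ℝ) : ℂ) * I * ((2 * T : ℝ) : ℂ)) -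
        cexp (((w : ℝ) : ℂ) * I * (T : ℂ))‖ ≤ 2 := by
      calc _ ≤ ‖cexp (((w : ℝ) : ℂ) * I * ((2 * T : ℝ) : ℂ))‖ +
            ‖cexp (((w : ℝ) : ℂ) * I * (T : ℂ))‖ := norm_sub_le _ _
        _ = 2 := by rw [he, he]; norm_num
    have hwp : 0 < |w| := abs_pos.mpr hw0
    rw [div_le_iff₀ hwp]
    calc _ ≤ (2 : ℝ) := h3
      _ = 4 * Y * (1 / (2 * Y)) := by field_simp; norm_num
      _ ≤ 4 * Y * |w| := by gcongr
  exact mul_le_mul_of_nonneg_left h2 (by positivity)

theorem OFF_cv (b : ℕ → ℂ) (k : ℕ) : B b 0 k = cv b k := by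
  unfold B cv
  apply Finset.sum_congr rfl
  intro d _
  simp

/-- the off diagonal terms -/
theorem OFF_sum (b : ℕ → ℂ) (N : ℕ) {T : ℝ} (hT : 1 ≤ T) (hN : N ≤ N0 T) :
    ‖(∫ t in T..(2 * T), (∑ n ∈ Icc 1 (N0 T), mo n t) * D b N t *
        (starRingEnd ℂ) (D (cv b) N t)) - (T * S2 (cv b) N : ℝ)‖ ≤
      24 * N * Real.sqrt T * (S1 b N * S1 (cv b) N) := by
  have hT0 : 0 < T := by linarith
  have e1 : ∫ t in T..(2 * T), (∑ n ∈ Icc 1 (N0 T), mo n t) * D b N t *
        (starRingEnd ℂ) (D (cv b) N t) = ∑ k ∈ Icc 1 N, ∑ m ∈ Icc 1 N, ∑ n ∈ Icc 1 (N0 T),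
      (b m * (starRingEnd ℂ) (cv b k)) *
        ∫ t in T..(2 * T), mo n t * mo m t * (starRingEnd ℂ) (mo k t) := by
    have e2 : ∀ t : ℝ, (∑ n ∈ Icc 1 (N0 T), mo n t) * D b N t *
        (starRingEnd ℂ) (D (cv b) N t) = ∑ k ∈ Icc 1 N, ∑ m ∈ Icc 1 N, ∑ n ∈ Icc 1 (N0 T),
        (b m * (starRingEnd ℂ) (cv b k)) * (mo n t * mo m t * (starRingEnd ℂ) (mo k t)) := by
      intro t
      unfold D
      rw [map_sum, Finset.mul_sum]
      apply Finset.sum_congr rfl
      intro k _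
      rw [Finset.mul_sum, Finset.sum_mul]
      apply Finset.sum_congr rfl
      intro m _
      rw [Finset.sum_mul, Finset.sum_mul]
      apply Finset.sum_congr rfl
      intro n _
      rw [map_mul]
      ring
    simp_rw [e2]
    have hci : ∀ k ∈ Icc 1 N, ∀ m ∈ Icc 1 N, ∀ n ∈ Icc 1 (N0 T), Continuous fun t : ℝ =>
        (b m * (starRingEnd ℂ) (cv b k)) * (mo n t * mo m t * (starRingEnd ℂ) (mo k t)) := by
      intro k hk m hm n hn
      have h1 := TF_mo_cont (Finset.mem_Icc.1 hk).1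
      have h2 := TF_mo_cont (Finset.mem_Icc.1 hm).1
      have h3 := TF_mo_cont (Finset.mem_Icc.1 hn).1
      exact continuous_const.mul ((h3.mul h2).mul (Complex.continuous_conj.comp h1))
    rw [intervalIntegral.integral_finsetSum]
    · apply Finset.sum_congr rfl
      intro k hk
      rw [intervalIntegral.integral_finsetSum]
      · apply Finset.sum_congr rfl
        intro m hm
        rw [intervalIntegral.integral_finsetSum]
        · apply Finset.sum_congr rfl
          intro n _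
          rw [intervalIntegral.integral_const_mul]
        · intro n hn
          exact (hci k hk m hm n hn).intervalIntegrable _ _
      · intro m hm
        exact (continuous_finsetSum _ fun n hn => hci k hk m hm n hn).intervalIntegrable _ _
    · intro k hk
      exact (continuous_finsetSum _ fun m hm => continuous_finsetSum _ fun n hn =>
        hci k hk m hm n hn).intervalIntegrable _ _
  have e3 := TF_diag b (fun k => (starRingEnd ℂ) (cv b k)) (N0 T) N hN T
  have e4 : (T : ℂ) * ∑ k ∈ Icc 1 N, (starRingEnd ℂ) (cv b k) * B b 0 k / (k : ℂ) =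
      ((T * S2 (cv b) N : ℝ) : ℂ) := by
    unfold S2
    push_cast
    congr 1
    apply Finset.sum_congr rfl
    intro k _
    rw [OFF_cv, mul_comm, Complex.mul_conj, Complex.normSq_eq_norm_sq]
    push_cast
    rfl
  rw [e1, ← e4, ← e3, ← Finset.sum_sub_distrib]
  have hstep : ∀ k ∈ Icc 1 N, ∀ m ∈ Icc 1 N, ∀ n ∈ Icc 1 (N0 T),
      ‖(b m * (starRingEnd ℂ) (cv b k)) *
        (∫ t in T..(2 * T), mo n t * mo m t * (starRingEnd ℂ) (mo k t)) -
        (b m * (starRingEnd ℂ) (cv b k)) * (if n * m = k then (T : ℂ) / (k : ℂ) else 0)‖ ≤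
      ‖co b m‖ * ‖co (cv b) k‖ * (4 * N) * (1 / Real.sqrt n) := by
    intro k hk m hm n hn
    rw [Finset.mem_Icc] at hk hm hn
    split_ifs with h
    · rw [TF_int_diag hn.1 hm.1 hk.1 h, sub_self, norm_zero]
      positivity
    · rw [mul_zero, sub_zero, norm_mul, norm_mul, Complex.norm_conj, co_norm, co_norm]
      have h1 := OFF_off hn.1 hm.1 hk.1 hk.2 h T
      calc ‖b m‖ * ‖cv b k‖ * ‖∫ t in T..(2 * T), mo n t * mo m t * (starRingEnd ℂ) (mo k t)‖
          ≤ ‖b m‖ * ‖cv b k‖ * (1 / Real.sqrt n * (1 / Real.sqrt m) * (1 / Real.sqrt k) *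
            (4 * N)) := by gcongr
        _ = _ := by ring
  calc ‖∑ k ∈ Icc 1 N, ((∑ m ∈ Icc 1 N, ∑ n ∈ Icc 1 (N0 T), (b m * (starRingEnd ℂ) (cv b k)) *
        ∫ t in T..(2 * T), mo n t * mo m t * (starRingEnd ℂ) (mo k t)) -
        ∑ m ∈ Icc 1 N, ∑ n ∈ Icc 1 (N0 T), (b m * (starRingEnd ℂ) (cv b k)) *
          (if n * m = k then (T : ℂ) / (k : ℂ) else 0))‖
      ≤ ∑ k ∈ Icc 1 N, ∑ m ∈ Icc 1 N, ∑ n ∈ Icc 1 (N0 T),
          ‖co b m‖ * ‖co (cv b) k‖ * (4 * N) * (1 / Real.sqrt n) := by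
        refine (norm_sum_le _ _).trans (Finset.sum_le_sum fun k hk => ?_)
        rw [← Finset.sum_sub_distrib]
        refine (norm_sum_le _ _).trans (Finset.sum_le_sum fun m hm => ?_)
        rw [← Finset.sum_sub_distrib]
        exact (norm_sum_le _ _).trans (Finset.sum_le_sum fun n hn => hstep k hk m hm n hn)
    _ = 4 * N * (S1 b N * S1 (cv b) N) * ∑ n ∈ Icc 1 (N0 T), 1 / Real.sqrt n := by
        unfold S1
        simp_rw [← Finset.mul_sum, ← Finset.sum_mul, ← Finset.mul_sum]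
        ring
    _ ≤ 4 * N * (S1 b N * S1 (cv b) N) * (6 * Real.sqrt T) := by
        have h1 := S1_nonneg b N
        have h2 := S1_nonneg (cv b) N
        have h3 := OFF_N0 hT
        gcongr
    _ = _ := by ring

theorem stmt_OFF (hZS : Stmt_ZS) : Stmt_OFF := by
  obtain ⟨C, T0, hC, hT0, hZ⟩ := hZS
  refine ⟨C + 24, T0, by positivity, hT0, ?_⟩
  intro T N b hT hN hNT
  have hT1 : 1 < T := lt_of_lt_of_le hT0 hT
  have hTpos : 0 < T := by linarith
  have hTT : T ≤ 2 * T := by linarith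
  have hN1 : (1 : ℝ) ≤ N := by exact_mod_cast hN
  have hNN : N ≤ N0 T := by
    have h1 : (N : ℝ) ≤ (N0 T : ℝ) := by
      unfold N0
      push_cast
      have := Nat.le_ceil (3 * T)
      linarith
    exact_mod_cast h1
  set S : ℝ → ℂ := fun t => ∑ n ∈ Icc 1 (N0 T), mo n t with hS
  have hSc : Continuous S := by
    rw [hS]
    exact continuous_finsetSum _ fun n hn => TF_mo_cont (Finset.mem_Icc.1 hn).1
  have hDc := TF_D_cont b N
  have hEc : Continuous fun t => (starRingEnd ℂ) (D (cv b) N t) :=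
    Complex.continuous_conj.comp (TF_D_cont (cv b) N)
  have hA : ‖∫ t in T..(2 * T), (riemannZeta (1 / 2 + I * t) - S t) * D b N t *
      (starRingEnd ℂ) (D (cv b) N t)‖ ≤ C * Real.sqrt T * (S1 b N * S1 (cv b) N) := by
    have h1 : ∀ t ∈ Set.uIoc T (2 * T), ‖(riemannZeta (1 / 2 + I * t) - S t) * D b N t *
        (starRingEnd ℂ) (D (cv b) N t)‖ ≤ C / Real.sqrt T * S1 b N * S1 (cv b) N := by
      intro t ht
      rw [Set.uIoc_of_le hTT] at ht
      rw [norm_mul, norm_mul, Complex.norm_conj]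
      have h2 := hZ T t hT (by linarith [ht.1]) (by linarith [ht.2])
      have h3 := D_le b N t
      have h4 := D_le (cv b) N t
      have h5 := S1_nonneg b N
      gcongr
    refine (intervalIntegral.norm_integral_le_of_norm_le_const h1).trans (le_of_eq ?_)
    rw [show 2 * T - T = T by ring, abs_of_pos hTpos]
    have h6 : T / Real.sqrt T = Real.sqrt T := Real.div_sqrt
    calc C / Real.sqrt T * S1 b N * S1 (cv b) N * T =
        C * (T / Real.sqrt T) * (S1 b N * S1 (cv b) N) := by ring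
      _ = _ := by rw [h6]
  have hB := OFF_sum b N hT1.le hNN
  have e3 : (∫ t in T..(2 * T), riemannZeta (1 / 2 + I * t) * D b N t *
        (starRingEnd ℂ) (D (cv b) N t)) - (T * S2 (cv b) N : ℝ) =
      (∫ t in T..(2 * T), (riemannZeta (1 / 2 + I * t) - S t) * D b N t *
        (starRingEnd ℂ) (D (cv b) N t)) +
      ((∫ t in T..(2 * T), S t * D b N t *
        (starRingEnd ℂ) (D (cv b) N t)) - (T * S2 (cv b) N : ℝ)) := by
    rw [← add_sub_assoc, ← intervalIntegral.integral_add]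
    · congr 1
      apply intervalIntegral.integral_congr
      intro t _
      simp only
      ring
    · exact (((TF_zeta_cont.sub hSc).mul hDc).mul hEc).intervalIntegrable _ _
    · exact ((hSc.mul hDc).mul hEc).intervalIntegrable _ _
  rw [e3]
  have hS1 := S1_mul b (cv b) N
  have hss : 0 ≤ Real.sqrt (S2 b N) * Real.sqrt (S2 (cv b) N) := by positivity
  calc _ ≤ C * Real.sqrt T * (S1 b N * S1 (cv b) N) +
        24 * N * Real.sqrt T * (S1 b N * S1 (cv b) N) := (norm_add_le _ _).trans (add_le_add hA hB)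
    _ = (C + 24 * N) * Real.sqrt T * (S1 b N * S1 (cv b) N) := by ring
    _ ≤ (C * N + 24 * N) * Real.sqrt T *
        (N * (Real.sqrt (S2 b N) * Real.sqrt (S2 (cv b) N))) := by
        have h7 : C ≤ C * N := by nlinarith
        gcongr
        exact mul_nonneg (S1_nonneg b N) (S1_nonneg (cv b) N)
    _ = _ := by ring

end

end HZU
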