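import Pool.Agent.Work.MP_c51bc2_nt_ub.Base

/-! # QFB: the first moment of `Z` with the weight `|D|²` -/

set_option autoImplicit false

open Finset Complex MeasureTheory HZS
open scoped ComplexConjugate

namespace HZU

noncomputable section

theorem stmt_QFB (hKMN : Stmt_KMN) (hZC : Stmt_ZC) : Stmt_QFB := by
  obtain ⟨C, T0, hC, hT0, hK⟩ := hKMN
  refine ⟨C, T0, hC, hT0, ?_⟩
  intro T N b hT
  have hT1 : 1 < T := lt_of_lt_of_le hT0 hT
  have hT00 : 0 < T := by linarith
  have hZc : Continuous fun t : ℝ => (Z t : ℂ) := Complex.continuous_ofReal.comp hZC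
  have e1 : ((∫ t in T..(2 * T), Z t * ‖D b N t‖ ^ 2 : ℝ) : ℂ) =
      ∑ j ∈ Icc 1 N, ∑ k ∈ Icc 1 N, co b j * conj (co b k) *
        ∫ t in T..(2 * T), (Z t : ℂ) *
          cexp (I * ((t * (-Real.log j - -Real.log k) : ℝ) : ℂ)) := by
    rw [← intervalIntegral.integral_ofReal]
    have e2 : ∀ t : ℝ, ((Z t * ‖D b N t‖ ^ 2 : ℝ) : ℂ) = ∑ j ∈ Icc 1 N, ∑ k ∈ Icc 1 N,
        co b j * conj (co b k) * ((Z t : ℂ) *
          cexp (I * ((t * (-Real.log j - -Real.log k) : ℝ) : ℂ))) := by
      intro t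
      rw [Complex.ofReal_mul, D_ES, Pool.Agent.Work.MP_e9b29d_nt.norm_sq_ES, Finset.mul_sum]
      refine Finset.sum_congr rfl fun j _ => ?_
      rw [Finset.mul_sum]
      refine Finset.sum_congr rfl fun k _ => ?_
      rw [mul_comm I, mul_comm t]
      ring
    simp_rw [e2]
    rw [intervalIntegral.integral_finsetSum]
    · refine Finset.sum_congr rfl fun j _ => ?_
      rw [intervalIntegral.integral_finsetSum]
      · refine Finset.sum_congr rfl fun k _ => ?_
        rw [intervalIntegral.integral_const_mul]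
      · intro k _
        apply Continuous.intervalIntegrable
        fun_prop
    · intro j _
      apply Continuous.intervalIntegrable
      fun_prop
  have h1 : |∫ t in T..(2 * T), Z t * ‖D b N t‖ ^ 2| =
      ‖((∫ t in T..(2 * T), Z t * ‖D b N t‖ ^ 2 : ℝ) : ℂ)‖ := by
    rw [Complex.norm_real, Real.norm_eq_abs]
  rw [h1, e1]
  calc ‖∑ j ∈ Icc 1 N, ∑ k ∈ Icc 1 N, co b j * conj (co b k) *
        ∫ t in T..(2 * T), (Z t : ℂ) *
          cexp (I * ((t * (-Real.log j - -Real.log k) : ℝ) : ℂ))‖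
      ≤ ∑ j ∈ Icc 1 N, ∑ k ∈ Icc 1 N, ‖co b j‖ * ‖co b k‖ * (C * T ^ (3 / 4 : ℝ)) := by
        refine (norm_sum_le _ _).trans (Finset.sum_le_sum fun j _ => ?_)
        refine (norm_sum_le _ _).trans (Finset.sum_le_sum fun k _ => ?_)
        rw [norm_mul, norm_mul, Complex.norm_conj]
        exact mul_le_mul_of_nonneg_left (hK T _ hT) (by positivity)
    _ = C * T ^ (3 / 4 : ℝ) * S1 b N ^ 2 := by
        unfold S1
        rw [sq, Finset.sum_mul_sum, Finset.mul_sum]
        refine Finset.sum_congr rfl fun j _ => ?_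
        rw [Finset.mul_sum]
        refine Finset.sum_congr rfl fun k _ => ?_
        ring
    _ ≤ C * T ^ (3 / 4 : ℝ) * (N * S2 b N) := by
        apply mul_le_mul_of_nonneg_left (S1_sq b N) (by positivity)

end

end HZU
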