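import Pool.Agent.Work.MP_c51bc2_nt_ub.Interface

/-! # ZSQ: the second moment of `Z` -/

set_option autoImplicit false

open Finset Complex MeasureTheory HZS

namespace HZU

noncomputable section

theorem stmt_ZSQ (hTW0 : Stmt_TW0) : Stmt_ZSQ := by
  obtain ⟨C, T0, hC, hT0, h⟩ := hTW0
  refine ⟨C, max T0 ((100 : ℝ) ^ 8), hC, lt_max_of_lt_left hT0, ?_⟩
  intro T hT
  have hT1 : T0 ≤ T := (le_max_left _ _).trans hT
  have hT2 : (100 : ℝ) ^ 8 ≤ T := (le_max_right _ _).trans hT
  have hT3 : 0 < T := by linarith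
  have hlog : 0 ≤ Real.log T := Real.log_nonneg (by linarith)
  have hch : IsChain (Real.log T) 0 (fun _ => 100) (fun _ => 1) := by
    refine ⟨rfl, ?_, ?_, ?_, ?_, ?_, ?_⟩
    · intro j hj; omega
    · intro j hj; omega
    · intro j hj; omega
    · intro j hj; omega
    · simp
    · simp only [range_zero, sum_empty]
      positivity
  have h1 := h T 0 (fun _ => 100) (fun _ => 1) hT1 hch 0 le_rfl (by
    have h2 := Real.log_le_log (by norm_num) hT2
    rw [Real.log_pow] at h2
    push_cast at h2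
    show Real.log 100 ≤ Real.log T / 8
    linarith)
  have e1 : ∀ t : ℝ, |Z t| ^ 2 * ‖MM (fun _ => 100) (fun _ => 1) (range 0) t‖ ^ 2 = |Z t| ^ 2 := by
    intro t
    unfold MM
    simp
  simp_rw [e1] at h1
  refine h1.trans ?_
  have h3 : (1 : ℝ) ≤ Real.log 100 := by
    rw [Real.le_log_iff_exp_le (by norm_num)]
    have := Real.exp_one_lt_d9
    linarith
  have h4 : Real.log 100 ^ (-(3 / 4) : ℝ) ≤ 1 :=
    Real.rpow_le_one_of_one_le_of_nonpos h3 (by norm_num)
  calc C * T * Real.log T * Real.log 100 ^ (-(3 / 4) : ℝ) ≤ C * T * Real.log T * 1 := by gcongr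
    _ = C * T * Real.log T := mul_one _

end

end HZU
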