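import Pool.Agent.Work.MP_c51bc2_nt.All
import Pool.Agent.Work.MP_c51bc2_nt_ub.B_DTD
import Pool.Agent.Work.MP_c51bc2_nt_ub.B_OSC
import Pool.Agent.Work.MP_c51bc2_nt_ub.B_KMN
import Pool.Agent.Work.MP_c51bc2_nt_ub.B_QFB
import Pool.Agent.Work.MP_c51bc2_nt_ub.B_CVL
import Pool.Agent.Work.MP_c51bc2_nt_ub.B_OFF
import Pool.Agent.Work.MP_c51bc2_nt_ub.B_ZSQ
import Pool.Agent.Work.MP_c51bc2_nt_ub.B_G4
import Pool.Agent.Work.MP_c51bc2_nt_ub.B_LOW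
import Pool.Agent.Work.MP_c51bc2_nt_ub.B_FIN

/-! All the blocks together. -/

set_option autoImplicit false

open Finset Complex MeasureTheory HZS

namespace HZU

theorem all_KMN : Stmt_KMN := stmt_KMN (stmt_OSC stmt_DTD) stmt_RZ stmt_ZS stmt_PHS
theorem all_QFB : Stmt_QFB := stmt_QFB all_KMN all_ZC
theorem all_OFF : Stmt_OFF := stmt_OFF stmt_ZS
theorem all_ZSQ : Stmt_ZSQ := stmt_ZSQ all_TW0
theorem all_LOW : Stmt_LOW :=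
  stmt_LOW all_OFF stmt_CVL stmt_G4 all_ZSQ stmt_RZ stmt_PHS all_ZC
theorem all_FIN : Stmt_FIN := stmt_FIN all_QFB all_LOW all_ZC

/-- the final statement -/
theorem final_UB :
    ∃ Z : ℝ → ℝ,
      (∀ t : ℝ, (Z t : ℂ) =
        (Real.pi : ℂ) ^ (-(I * t / 2)) * Complex.Gamma (1 / 4 + I * t / 2) /
          (‖Complex.Gamma (1 / 4 + I * t / 2)‖ : ℂ) * riemannZeta (1 / 2 + I * t)) ∧
      ∀ ε : ℝ, 0 < ε → ∃ C T₀ : ℝ, 0 < C ∧ 1 < T₀ ∧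
        ∀ (T : ℝ) (N : ℕ) (a : ℕ → ℂ), T₀ ≤ T → 1 ≤ N → ∀ P M : ℝ,
          P = ∫ t in T..(2 * T),
            max (Z t) 0 * ‖∑ n ∈ Finset.Icc 1 N, a n * (n : ℂ) ^ (-(I * (t : ℂ)))‖ ^ 2 →
          M = ∫ t in T..(2 * T),
            min (Z t) 0 * ‖∑ n ∈ Finset.Icc 1 N, a n * (n : ℂ) ^ (-(I * (t : ℂ)))‖ ^ 2 →
          |P + M| ≤ C * (N : ℝ) * T ^ (-(1 / 4) + ε) * (P - M) ∧
          ((N : ℝ) ≤ T ^ (1 / 4 - ε) →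
            T ^ (1 - ε) * ∑ n ∈ Finset.Icc 1 N, ‖a n‖ ^ 2 ≤ C * P ∧
            T ^ (1 - ε) * ∑ n ∈ Finset.Icc 1 N, ‖a n‖ ^ 2 ≤ C * -M) := by
  refine ⟨HZS.Z, fun t => KMN_Z stmt_RZ t, ?_⟩
  intro ε hε
  obtain ⟨C, T0, hC, hT0, h⟩ := all_FIN ε hε
  refine ⟨C, T0, hC, hT0, ?_⟩
  intro T N a hT hN P M hP hM
  have h1 := h T N a hT hN
  unfold Ax at h1
  rw [hP, hM]
  exact h1

end HZU
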