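import Pool.Agent.Work.MP_c51bc2_nt_ub.Base
import Pool.Agent.Work.MP_c51bc2_nt_ub.B_KMN

/-! # LOW: the lower bound for the weighted first moment of `|Z|` -/

set_option autoImplicit false

open Finset Complex MeasureTheory HZS

namespace HZU

noncomputable section

theorem LOW_CS {f g : ℝ → ℝ} (hf : Continuous f) (hg : Continuous g) {a b : ℝ} (hab : a ≤ b) :
    (∫ t in a..b, f t * g t) ^ 2 ≤ (∫ t in a..b, f t ^ 2) * ∫ t in a..b, g t ^ 2 := by
  have h : ∀ x : ℝ, 0 ≤ (∫ t in a..b, g t ^ 2) * (x * x) + (-2 * ∫ t in a..b, f t * g t) * x +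
      ∫ t in a..b, f t ^ 2 := by
    intro x
    have h1 : 0 ≤ ∫ t in a..b, (f t - x * g t) ^ 2 :=
      intervalIntegral.integral_nonneg hab (fun t _ => sq_nonneg _)
    have e : ∫ t in a..b, (f t - x * g t) ^ 2 = (x * x) * (∫ t in a..b, g t ^ 2) +
        (-2 * x) * (∫ t in a..b, f t * g t) + ∫ t in a..b, f t ^ 2 := by
      rw [← intervalIntegral.integral_const_mul, ← intervalIntegral.integral_const_mul,
        ← intervalIntegral.integral_add, ← intervalIntegral.integral_add]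
      · apply intervalIntegral.integral_congr
        intro t _
        simp only
        ring
      · apply Continuous.intervalIntegrable
        fun_prop
      · apply Continuous.intervalIntegrable
        fun_prop
      · apply Continuous.intervalIntegrable
        fun_prop
      · apply Continuous.intervalIntegrable
        fun_prop
    rw [e] at h1
    linarith
  have h2 := discrim_le_zero h
  unfold discrim at h2
  linarith

theorem LOW_abs (hRZ : Stmt_RZ) (hph : ∀ t, ‖ph t‖ = 1) (t : ℝ) :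
    ‖riemannZeta (1 / 2 + I * t)‖ = |Z t| := by
  have h := congrArg norm (KMN_Z hRZ t)
  rw [norm_mul, hph, one_mul, Complex.norm_real, Real.norm_eq_abs] at h
  exact h.symm

theorem stmt_LOW (hOFF : Stmt_OFF) (hCVL : Stmt_CVL) (hG4 : Stmt_G4) (hZSQ : Stmt_ZSQ)
    (hRZ : Stmt_RZ) (hPHS : Stmt_PHS) (hZC : Stmt_ZC) : Stmt_LOW := by
  intro ε hε hε8
  obtain ⟨C1, T1, hC1, hT1, hO⟩ := hOFF
  obtain ⟨C2, hC2, hV⟩ := hCVL (ε / 2) (by positivity)
  obtain ⟨C3, hC3, hG⟩ := hG4 (ε / 4) (by positivity)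
  obtain ⟨C4, T4, hC4, hT4, hQ⟩ := hZSQ
  obtain ⟨-, -, hph, -⟩ := hPHS
  set K : ℝ := C4 * C3 * (2 / ε) with hK
  have hK0 : 0 < K := by positivity
  refine ⟨C2 * (4 * Real.sqrt K), max (max T1 T4) ((2 * (C1 * Real.sqrt C2)) ^ (1 / ε)),
    by positivity, lt_max_of_lt_left (lt_max_of_lt_left hT1), ?_⟩
  intro T N b hT hN hNT
  have hTa : T1 ≤ T := ((le_max_left _ _).trans (le_max_left _ _)).trans hT
  have hTb : T4 ≤ T := ((le_max_right _ _).trans (le_max_left _ _)).trans hT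
  have hTc : (2 * (C1 * Real.sqrt C2)) ^ (1 / ε) ≤ T := (le_max_right _ _).trans hT
  have hT11 : 1 < T := lt_of_lt_of_le hT1 hTa
  have hT0 : 0 < T := by linarith
  have hTT : T ≤ 2 * T := by linarith
  have hN0 : (0 : ℝ) < N := by exact_mod_cast hN
  have hN1 : (1 : ℝ) ≤ N := by exact_mod_cast hN
  have hNT1 : (N : ℝ) ≤ T := hNT.trans (by
    calc T ^ (1 / 4 - ε) ≤ T ^ (1 : ℝ) :=
          Real.rpow_le_rpow_of_exponent_le hT11.le (by linarith)
      _ = T := Real.rpow_one T)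
  have hN4 : (N : ℝ) ^ 4 ≤ T := by
    calc (N : ℝ) ^ 4 ≤ (T ^ (1 / 4 - ε)) ^ 4 := by gcongr
      _ = T ^ ((1 / 4 - ε) * 4) := by
          rw [← Real.rpow_natCast, ← Real.rpow_mul hT0.le]; norm_num
      _ ≤ T ^ (1 : ℝ) := Real.rpow_le_rpow_of_exponent_le hT11.le (by linarith)
      _ = T := Real.rpow_one T
  set e : ℕ → ℂ := cv b with he
  set Sb := S2 b N with hSb
  set Se := S2 e N with hSe
  have hSb0 : 0 ≤ Sb := S2_nonneg b N
  have hSe0 : 0 ≤ Se := S2_nonneg e N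
  have hZc : Continuous Z := hZC
  have hDb : Continuous (D b N) := TF_D_cont b N
  have hDe : Continuous (D e N) := TF_D_cont e N
  set I1 := ∫ t in T..(2 * T), |Z t| * ‖D b N t‖ ^ 2 with hI1
  set I2 := ∫ t in T..(2 * T), |Z t| * ‖D e N t‖ ^ 2 with hI2
  set J := ∫ t in T..(2 * T), |Z t| * (‖D b N t‖ * ‖D e N t‖) with hJ
  have hI10 : 0 ≤ I1 := intervalIntegral.integral_nonneg hTT (fun t _ => by positivity)
  have hI20 : 0 ≤ I2 := intervalIntegral.integral_nonneg hTT (fun t _ => by positivity)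
  have hJ0 : 0 ≤ J := intervalIntegral.integral_nonneg hTT (fun t _ => by positivity)
  -- Cauchy
  have hJsq : J ^ 2 ≤ I1 * I2 := by
    have h1 := LOW_CS (f := fun t => Real.sqrt |Z t| * ‖D b N t‖)
      (g := fun t => Real.sqrt |Z t| * ‖D e N t‖) (by fun_prop) (by fun_prop) hTT
    have e1 : ∀ t, Real.sqrt |Z t| * ‖D b N t‖ * (Real.sqrt |Z t| * ‖D e N t‖) =
        |Z t| * (‖D b N t‖ * ‖D e N t‖) := by
      intro t
      have := Real.mul_self_sqrt (abs_nonneg (Z t))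
      calc _ = (Real.sqrt |Z t| * Real.sqrt |Z t|) * (‖D b N t‖ * ‖D e N t‖) := by ring
        _ = _ := by rw [this]
    have e2 : ∀ x : ℝ, ∀ t, (Real.sqrt |Z t| * x) ^ 2 = |Z t| * x ^ 2 := by
      intro x t
      rw [mul_pow, Real.sq_sqrt (abs_nonneg _)]
    simp_rw [e1, e2] at h1
    exact h1
  have hI2sq : I2 ^ 2 ≤ K * T ^ (2 + ε) * Se ^ 2 := by
    have h1 := LOW_CS (f := fun t => |Z t|) (g := fun t => ‖D e N t‖ ^ 2) (by fun_prop)
      (by fun_prop) hTT
    have e2 : ∀ t, (‖D e N t‖ ^ 2) ^ 2 = ‖D e N t‖ ^ 4 := by intro t; ring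
    simp_rw [e2] at h1
    have h2 := hQ T hTb
    have h3 := hG T N e hT11.le hN hN4
    have h4 : Real.log T ≤ T ^ (ε / 2) / (ε / 2) := Real.log_le_rpow_div hT0.le (by positivity)
    have h5 : 0 ≤ Real.log T := Real.log_nonneg hT11.le
    have h6 : 0 ≤ ∫ t in T..(2 * T), ‖D e N t‖ ^ 4 :=
      intervalIntegral.integral_nonneg hTT (fun t _ => by positivity)
    refine h1.trans ?_
    calc (∫ t in T..(2 * T), |Z t| ^ 2) * ∫ t in T..(2 * T), ‖D e N t‖ ^ 4
        ≤ (C4 * T * Real.log T) * (C3 * T ^ (1 + ε / 4) * Se ^ 2) := by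
          apply mul_le_mul h2 h3 h6 (by positivity)
      _ ≤ (C4 * T * (T ^ (ε / 2) / (ε / 2))) * (C3 * T ^ (1 + ε / 4) * Se ^ 2) := by gcongr
      _ = K * (T ^ (1 : ℝ) * T ^ (ε / 2) * T ^ (1 + ε / 4)) * Se ^ 2 := by
          rw [hK, Real.rpow_one]
          field_simp
      _ = K * T ^ (1 + ε / 2 + (1 + ε / 4)) * Se ^ 2 := by
          rw [← Real.rpow_add hT0, ← Real.rpow_add hT0]
      _ ≤ K * T ^ (2 + ε) * Se ^ 2 := by
          have h7 := Real.rpow_le_rpow_of_exponent_le hT11.le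
            (show 1 + ε / 2 + (1 + ε / 4) ≤ 2 + ε by linarith)
          exact mul_le_mul_of_nonneg_right (mul_le_mul_of_nonneg_left h7 hK0.le) (by positivity)
  have hI2le : I2 ≤ Real.sqrt K * T ^ (1 + ε / 2) * Se := by
    have h1 : I2 ^ 2 ≤ (Real.sqrt K * T ^ (1 + ε / 2) * Se) ^ 2 := by
      refine hI2sq.trans (le_of_eq ?_)
      rw [mul_pow, mul_pow, Real.sq_sqrt hK0.le, ← Real.rpow_natCast (T ^ (1 + ε / 2)),
        ← Real.rpow_mul hT0.le]
      congr 3
      push_cast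
      ring
    exact le_of_sq_le_sq h1 (by positivity)
  -- the size of the coefficients
  have hSbe : Sb ≤ C2 * T ^ (ε / 2) * Se := by
    refine (hV N b hN).trans ?_
    have : (N : ℝ) ^ (ε / 2) ≤ T ^ (ε / 2) := Real.rpow_le_rpow hN0.le hNT1 (by positivity)
    gcongr
  have hsq : Real.sqrt Sb * Real.sqrt Se ≤ Real.sqrt C2 * T ^ (ε / 4) * Se := by
    have h1 : Real.sqrt Sb ≤ Real.sqrt C2 * T ^ (ε / 4) * Real.sqrt Se := by
      apply Real.sqrt_le_iff.2
      refine ⟨by positivity, hSbe.trans (le_of_eq ?_)⟩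
      rw [mul_pow, mul_pow, Real.sq_sqrt hC2.le, Real.sq_sqrt hSe0,
        ← Real.rpow_natCast (T ^ (ε / 4)), ← Real.rpow_mul hT0.le]
      congr 3
      push_cast
      ring
    calc Real.sqrt Sb * Real.sqrt Se ≤ Real.sqrt C2 * T ^ (ε / 4) * Real.sqrt Se *
          Real.sqrt Se := by gcongr
      _ = Real.sqrt C2 * T ^ (ε / 4) * (Real.sqrt Se * Real.sqrt Se) := by ring
      _ = _ := by rw [Real.mul_self_sqrt hSe0]
  have hNsq : (N : ℝ) ^ 2 ≤ T ^ (1 / 2 - 2 * ε) := by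
    calc (N : ℝ) ^ 2 ≤ (T ^ (1 / 4 - ε)) ^ 2 := by gcongr
      _ = T ^ (1 / 2 - 2 * ε) := by
          rw [← Real.rpow_natCast, ← Real.rpow_mul hT0.le]
          congr 1
          push_cast
          ring
  have herr : C1 * Real.sqrt T * (N : ℝ) ^ 2 * (Real.sqrt Sb * Real.sqrt Se) ≤ T / 2 * Se := by
    have h1 : 2 * (C1 * Real.sqrt C2) ≤ T ^ ε := by
      calc 2 * (C1 * Real.sqrt C2) = ((2 * (C1 * Real.sqrt C2)) ^ (1 / ε)) ^ ε := by
            rw [← Real.rpow_mul (by positivity), one_div, inv_mul_cancel₀ hε.ne', Real.rpow_one]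
        _ ≤ T ^ ε := Real.rpow_le_rpow (by positivity) hTc hε.le
    calc C1 * Real.sqrt T * (N : ℝ) ^ 2 * (Real.sqrt Sb * Real.sqrt Se)
        ≤ C1 * T ^ (1 / 2 : ℝ) * T ^ (1 / 2 - 2 * ε) * (Real.sqrt C2 * T ^ (ε / 4) * Se) := by
          rw [Real.sqrt_eq_rpow T]
          gcongr
      _ = C1 * Real.sqrt C2 * (T ^ (1 / 2 : ℝ) * T ^ (1 / 2 - 2 * ε) * T ^ (ε / 4)) * Se := by ring
      _ = C1 * Real.sqrt C2 * T ^ (1 / 2 + (1 / 2 - 2 * ε) + ε / 4) * Se := by
          rw [Real.rpow_add hT0, Real.rpow_add hT0 (1 / 2)]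
      _ ≤ C1 * Real.sqrt C2 * T ^ (1 - ε) * Se := by
          have h7 := Real.rpow_le_rpow_of_exponent_le hT11.le
            (show 1 / 2 + (1 / 2 - 2 * ε) + ε / 4 ≤ 1 - ε by linarith)
          exact mul_le_mul_of_nonneg_right (mul_le_mul_of_nonneg_left h7 (by positivity)) hSe0
      _ ≤ T ^ ε / 2 * T ^ (1 - ε) * Se := by
          gcongr
          linarith
      _ = T / 2 * Se := by
          have : T ^ ε * T ^ (1 - ε) = T := by
            rw [← Real.rpow_add hT0, show ε + (1 - ε) = 1 by ring, Real.rpow_one]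
          calc T ^ ε / 2 * T ^ (1 - ε) * Se = (T ^ ε * T ^ (1 - ε)) / 2 * Se := by ring
            _ = _ := by rw [this]
  -- the twisted first moment
  have hmain : T / 2 * Se ≤ J := by
    have h1 := hO T N b hTa hN hNT1
    have h2 : ‖∫ t in T..(2 * T), riemannZeta (1 / 2 + I * t) * D b N t *
        (starRingEnd ℂ) (D (cv b) N t)‖ ≤ J := by
      refine (intervalIntegral.norm_integral_le_integral_norm hTT).trans (le_of_eq ?_)
      rw [hJ]
      apply intervalIntegral.integral_congr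
      intro t _
      simp only
      rw [norm_mul, norm_mul, Complex.norm_conj, LOW_abs hRZ hph, mul_assoc]
    have h3 : ‖((T * S2 (cv b) N : ℝ) : ℂ)‖ = T * Se := by
      rw [Complex.norm_real, Real.norm_of_nonneg (by positivity)]
    have h4 := norm_sub_norm_le ((T * S2 (cv b) N : ℝ) : ℂ)
      (∫ t in T..(2 * T), riemannZeta (1 / 2 + I * t) * D b N t *
        (starRingEnd ℂ) (D (cv b) N t))
    rw [norm_sub_rev, h3] at h4
    have h5 := h4.trans (h1.trans herr)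
    linarith
  -- the conclusion
  rcases hSe0.eq_or_lt with h0 | hpos
  · have h1 : Sb ≤ 0 := by
      have := hSbe
      rw [← h0, mul_zero] at this
      exact this
    have h2 : Sb = 0 := le_antisymm h1 hSb0
    rw [h2, mul_zero]
    positivity
  · have h1 : (T / 2 * Se) ^ 2 ≤ I1 * (Real.sqrt K * T ^ (1 + ε / 2) * Se) := by
      calc (T / 2 * Se) ^ 2 ≤ J ^ 2 := by gcongr
        _ ≤ I1 * I2 := hJsq
        _ ≤ _ := by gcongr
    have h2 : T ^ (1 - ε / 2) * T ^ (1 + ε / 2) = T ^ 2 := by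
      rw [← Real.rpow_add hT0, ← Real.rpow_natCast T 2]
      congr 1
      push_cast
      ring
    have h3 : (T ^ (1 - ε / 2) * Se) * (T ^ (1 + ε / 2) * Se) ≤
        (4 * Real.sqrt K * I1) * (T ^ (1 + ε / 2) * Se) := by
      calc (T ^ (1 - ε / 2) * Se) * (T ^ (1 + ε / 2) * Se) =
            (T ^ (1 - ε / 2) * T ^ (1 + ε / 2)) * Se ^ 2 := by ring
        _ = 4 * (T / 2 * Se) ^ 2 := by rw [h2]; ring
        _ ≤ 4 * (I1 * (Real.sqrt K * T ^ (1 + ε / 2) * Se)) := by gcongr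
        _ = _ := by ring
    have h4 : T ^ (1 - ε / 2) * Se ≤ 4 * Real.sqrt K * I1 :=
      le_of_mul_le_mul_right h3 (by positivity)
    have h5 : T ^ (1 - ε) * T ^ (ε / 2) = T ^ (1 - ε / 2) := by
      rw [← Real.rpow_add hT0]
      congr 1
      ring
    calc T ^ (1 - ε) * Sb ≤ T ^ (1 - ε) * (C2 * T ^ (ε / 2) * Se) := by gcongr
      _ = C2 * ((T ^ (1 - ε) * T ^ (ε / 2)) * Se) := by ring
      _ = C2 * (T ^ (1 - ε / 2) * Se) := by rw [h5]
      _ ≤ C2 * (4 * Real.sqrt K * I1) := by gcongr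
      _ = C2 * (4 * Real.sqrt K) * I1 := by ring

end

end HZU
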