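import Pool.Agent.Work.MP_c51bc2_nt_ub.Interface
import Pool.Agent.Work.MP_c51bc2_nt.B_TF
import Pool.Agent.Work.MP_e9b29d_nt.MV

/-! # Common lemmas -/

set_option autoImplicit false

open Finset Complex MeasureTheory HZS
open Pool.Agent.Work.MP_e9b29d_nt (ES)

namespace HZU

noncomputable section

/-- the coefficient `b n n^{-1/2}` -/
def co (b : ℕ → ℂ) (n : ℕ) : ℂ := b n * ((1 / Real.sqrt n : ℝ) : ℂ)

theorem co_norm (b : ℕ → ℂ) (n : ℕ) : ‖co b n‖ = ‖b n‖ / Real.sqrt n := by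
  unfold co
  rw [norm_mul, Complex.norm_real, Real.norm_of_nonneg (by positivity), mul_one_div]

theorem co_norm_sq (b : ℕ → ℂ) (n : ℕ) : ‖co b n‖ ^ 2 = ‖b n‖ ^ 2 / (n : ℝ) := by
  rw [co_norm, div_pow, Real.sq_sqrt (Nat.cast_nonneg n)]

theorem S2_co (b : ℕ → ℂ) (N : ℕ) : S2 b N = ∑ n ∈ Icc 1 N, ‖co b n‖ ^ 2 := by
  unfold S2
  simp_rw [co_norm_sq]

theorem S2_nonneg (b : ℕ → ℂ) (N : ℕ) : 0 ≤ S2 b N := by
  unfold S2
  positivity

theorem D_ES (b : ℕ → ℂ) (N : ℕ) (t : ℝ) :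
    D b N t = ES (Icc 1 N) (co b) (fun n => -Real.log n) t := by
  unfold D ES co
  apply Finset.sum_congr rfl
  intro n hn
  rw [TF_mo (Finset.mem_Icc.1 hn).1, ← mul_assoc]
  congr 2
  push_cast
  ring

/-- `∑ |b n| / √n` -/
def S1 (b : ℕ → ℂ) (N : ℕ) : ℝ := ∑ n ∈ Icc 1 N, ‖co b n‖

theorem S1_nonneg (b : ℕ → ℂ) (N : ℕ) : 0 ≤ S1 b N := by
  unfold S1
  positivity

theorem S1_sq (b : ℕ → ℂ) (N : ℕ) : S1 b N ^ 2 ≤ N * S2 b N := by
  rw [S2_co]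
  unfold S1
  have h := sq_sum_le_card_mul_sum_sq (s := Icc 1 N) (f := fun n => ‖co b n‖)
  rw [Nat.card_Icc, Nat.add_sub_cancel] at h
  exact h

theorem S1_mul (b e : ℕ → ℂ) (N : ℕ) :
    S1 b N * S1 e N ≤ N * (Real.sqrt (S2 b N) * Real.sqrt (S2 e N)) := by
  have h1 := S1_sq b N
  have h2 := S1_sq e N
  have h3 : (S1 b N * S1 e N) ^ 2 ≤ (N * (Real.sqrt (S2 b N) * Real.sqrt (S2 e N))) ^ 2 := by
    have e1 : (N * (Real.sqrt (S2 b N) * Real.sqrt (S2 e N))) ^ 2 =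
        (N * S2 b N) * (N * S2 e N) := by
      rw [mul_pow, mul_pow, Real.sq_sqrt (S2_nonneg b N), Real.sq_sqrt (S2_nonneg e N)]
      ring
    rw [e1, mul_pow]
    exact mul_le_mul h1 h2 (by positivity) (mul_nonneg (Nat.cast_nonneg _) (S2_nonneg b N))
  exact le_of_sq_le_sq h3 (by positivity)

theorem D_le (b : ℕ → ℂ) (N : ℕ) (t : ℝ) : ‖D b N t‖ ≤ S1 b N := by
  rw [D_ES]
  unfold ES S1
  refine (norm_sum_le _ _).trans (le_of_eq ?_)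
  apply Finset.sum_congr rfl
  intro n _
  rw [norm_mul, Complex.norm_exp_ofReal_mul_I, mul_one]

end

end HZU
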