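import Mathlib
import Pool.Agent.Work.MP_c51bc2_nt.Interface

/-!
# MP_c51bc2_nt, Theorem UB: balance of the signed parts of Hardy's function with weights

Let `A(t) = ∑_{n ≤ N} a_n n^{-it}`. The positive and the negative part of `Z |A|²` on `[T, 2T]`
balance with a relative error `N T^{-1/4+ε}`.

Everything is written with `D b N t = ∑_{n ≤ N} b n n^{-1/2-it}`, so `A = D b N` for
`b n = √n a_n`.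
-/

open Finset Complex MeasureTheory HZS

namespace HZU

noncomputable section

/-- `∑_{n ≤ N} |b n|² / n` -/
def S2 (b : ℕ → ℂ) (N : ℕ) : ℝ := ∑ n ∈ Icc 1 N, ‖b n‖ ^ 2 / (n : ℝ)

/-- `∑_{d ∣ m} b d` -/
def cv (b : ℕ → ℂ) (m : ℕ) : ℂ := ∑ d ∈ m.divisors, b d

/-- the weight `∑_{n ≤ N} a n n^{-it}` -/
def Ax (a : ℕ → ℂ) (N : ℕ) (t : ℝ) : ℂ := ∑ n ∈ Icc 1 N, a n * (n : ℂ) ^ (-(I * (t : ℂ)))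

/-- DTD: `θ'` is continuously differentiable and `θ'' ≥ c / t`. -/
def Stmt_DTD : Prop := ∃ d2 : ℝ → ℝ, (∀ t : ℝ, HasDerivAt dth (d2 t) t) ∧ Continuous d2 ∧
  ∀ t : ℝ, 1 ≤ t → 1 / (15 * t) ≤ d2 t

/-- OSC: oscillating integrals of the phase. -/
def Stmt_OSC : Prop := ∃ C : ℝ, 0 < C ∧ ∀ T y : ℝ, 1 ≤ T →
  ‖∫ t in T..(2 * T), ph t * cexp (-(I * ((t * y : ℝ) : ℂ)))‖ ≤ C * Real.sqrt T ∧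
  (Real.log T / 2 + C ≤ y →
    ‖∫ t in T..(2 * T), ph t * cexp (-(I * ((t * y : ℝ) : ℂ)))‖ ≤ C)

/-- KMN: the twisted first moment of `Z`. -/
def Stmt_KMN : Prop := ∃ C T0 : ℝ, 0 < C ∧ 1 < T0 ∧ ∀ T y : ℝ, T0 ≤ T →
  ‖∫ t in T..(2 * T), (Z t : ℂ) * cexp (I * ((t * y : ℝ) : ℂ))‖ ≤ C * T ^ (3 / 4 : ℝ)

/-- QFB: the first moment of `Z` with the weight `|D|²`. -/
def Stmt_QFB : Prop := ∃ C T0 : ℝ, 0 < C ∧ 1 < T0 ∧ ∀ (T : ℝ) (N : ℕ) (b : ℕ → ℂ), T0 ≤ T →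
  |∫ t in T..(2 * T), Z t * ‖D b N t‖ ^ 2| ≤ C * T ^ (3 / 4 : ℝ) * (N * S2 b N)

/-- CVL: the coefficients are controlled by their convolution with `1`. -/
def Stmt_CVL : Prop := ∀ ε : ℝ, 0 < ε → ∃ C : ℝ, 0 < C ∧ ∀ (N : ℕ) (b : ℕ → ℂ), 1 ≤ N →
  S2 b N ≤ C * (N : ℝ) ^ ε * S2 (cv b) N

/-- OFF: the twisted first moment of `ζ`. -/
def Stmt_OFF : Prop := ∃ C T0 : ℝ, 0 < C ∧ 1 < T0 ∧ ∀ (T : ℝ) (N : ℕ) (b : ℕ → ℂ), T0 ≤ T →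
  1 ≤ N → (N : ℝ) ≤ T →
    ‖(∫ t in T..(2 * T), riemannZeta (1 / 2 + I * t) * D b N t *
        (starRingEnd ℂ) (D (cv b) N t)) - (T * S2 (cv b) N : ℝ)‖ ≤
      C * Real.sqrt T * (N : ℝ) ^ 2 * (Real.sqrt (S2 b N) * Real.sqrt (S2 (cv b) N))

/-- ZSQ: the second moment of `Z`. -/
def Stmt_ZSQ : Prop := ∃ C T0 : ℝ, 0 < C ∧ 1 < T0 ∧ ∀ T : ℝ, T0 ≤ T →
  ∫ t in T..(2 * T), |Z t| ^ 2 ≤ C * T * Real.log T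

/-- G4: the fourth moment of a short Dirichlet polynomial. -/
def Stmt_G4 : Prop := ∀ ε : ℝ, 0 < ε → ∃ C : ℝ, 0 < C ∧ ∀ (T : ℝ) (N : ℕ) (b : ℕ → ℂ), 1 ≤ T →
  1 ≤ N → (N : ℝ) ^ 4 ≤ T →
    ∫ t in T..(2 * T), ‖D b N t‖ ^ 4 ≤ C * T ^ (1 + ε) * (S2 b N) ^ 2

/-- LOW: the lower bound for the weighted first moment of `|Z|`. -/
def Stmt_LOW : Prop := ∀ ε : ℝ, 0 < ε → ε ≤ 1 / 8 → ∃ C T0 : ℝ, 0 < C ∧ 1 < T0 ∧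
  ∀ (T : ℝ) (N : ℕ) (b : ℕ → ℂ), T0 ≤ T → 1 ≤ N → (N : ℝ) ≤ T ^ (1 / 4 - ε) →
    T ^ (1 - ε) * S2 b N ≤ C * ∫ t in T..(2 * T), |Z t| * ‖D b N t‖ ^ 2

/-- FIN: the theorem for Hardy's function. -/
def Stmt_FIN : Prop := ∀ ε : ℝ, 0 < ε → ∃ C T0 : ℝ, 0 < C ∧ 1 < T0 ∧
  ∀ (T : ℝ) (N : ℕ) (a : ℕ → ℂ), T0 ≤ T → 1 ≤ N →
    |(∫ t in T..(2 * T), max (Z t) 0 * ‖Ax a N t‖ ^ 2) +
        ∫ t in T..(2 * T), min (Z t) 0 * ‖Ax a N t‖ ^ 2| ≤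
      C * (N : ℝ) * T ^ (-(1 / 4) + ε) *
        ((∫ t in T..(2 * T), max (Z t) 0 * ‖Ax a N t‖ ^ 2) -
          ∫ t in T..(2 * T), min (Z t) 0 * ‖Ax a N t‖ ^ 2) ∧
    ((N : ℝ) ≤ T ^ (1 / 4 - ε) →
      T ^ (1 - ε) * ∑ n ∈ Icc 1 N, ‖a n‖ ^ 2 ≤
        C * ∫ t in T..(2 * T), max (Z t) 0 * ‖Ax a N t‖ ^ 2 ∧
      T ^ (1 - ε) * ∑ n ∈ Icc 1 N, ‖a n‖ ^ 2 ≤
        C * -∫ t in T..(2 * T), min (Z t) 0 * ‖Ax a N t‖ ^ 2)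

end

end HZU
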